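import Pool.Agent.X175.NA.KL

/-!
# Gluing maps with nearly equal derivatives
-/

set_option autoImplicit false

open Set Filter Topology Metric Function MeasureTheory
open scoped ContDiff

noncomputable section

namespace Pool.Agent.X175.NA

open Pool.Agent.Y522

variable {n : ℕ}

/-- smooth near `p` -/
def Sm {V : Type} [NormedAddCommGroup V] [NormedSpace ℝ V] (f : E n → V) (p : E n) : Prop :=
  ∀ᶠ y in 𝓝 p, ContDiffAt ℝ ∞ f y

lemma inv_near (L : E n ≃L[ℝ] E n) (D : E n →L[ℝ] E n)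
    (h : ‖(L.symm : E n →L[ℝ] E n) ∘L D - ContinuousLinearMap.id ℝ (E n)‖ ≤ 3 / 4) :
    Bijective D := by
  have hi : Injective D := by
    rw [injective_iff_map_eq_zero]
    intro v hv
    have h1 := ContinuousLinearMap.le_opNorm
      ((L.symm : E n →L[ℝ] E n) ∘L D - ContinuousLinearMap.id ℝ (E n)) v
    have h2 : ((L.symm : E n →L[ℝ] E n) ∘L D - ContinuousLinearMap.id ℝ (E n)) v = -v := by
      simp [hv]
    rw [h2, norm_neg] at h1
    have h3 : ‖v‖ ≤ 3 / 4 * ‖v‖ := h1.trans (by gcongr)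
    have h4 : ‖v‖ ≤ 0 := by linarith
    exact norm_le_zero_iff.1 h4
  exact ⟨hi, (LinearMap.injective_iff_surjective (f := (D : E n →ₗ[ℝ] E n))).1 hi⟩

lemma LD_of_bij' {H : E n → E n} {x : E n} (h : Sm H x) {D : E n →L[ℝ] E n}
    (hD : HasFDerivAt H D x) (hb : Bijective D) : LD n H x := by
  refine LD_of_contDiffAt h (ContinuousLinearEquiv.ofBijective D
    (LinearMap.ker_eq_bot.2 hb.1) (LinearMap.range_eq_top.2 hb.2)) ?_
  exact hD

/-- **Gluing** -/
theorem asm {ι : Type} (s : Finset ι) (hs : s.Nonempty) (w : ι → E n → ℝ) (M : ι → E n → E n)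
    (H : E n → E n) (p : E n) (L : E n ≃L[ℝ] E n)
    (hw1 : ∀ᶠ q in 𝓝 p, ∑ i ∈ s, w i q = 1) (hw0 : ∀ i ∈ s, 0 ≤ w i p)
    (h : ∀ i ∈ s, (∀ᶠ q in 𝓝 p, w i q = 0) ∨ (Sm (w i) p ∧ Sm (M i) p ∧
      ∃ D : E n →L[ℝ] E n, HasFDerivAt (M i) D p ∧
        ‖(L.symm : E n →L[ℝ] E n) ∘L D - ContinuousLinearMap.id ℝ (E n)‖ ≤ 1 / 2 ∧
        ‖fderiv ℝ (w i) p‖ * ‖L.symm (M i p - H p)‖ ≤ 1 / (4 * s.card))) :
    LD n (fun q => ∑ i ∈ s, w i q • M i q) p := by
  classical
  have hc0 : (0 : ℝ) < s.card := by exact_mod_cast hs.card_pos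
  -- the terms
  have key : ∀ i ∈ s, Sm (fun q => w i q • (M i q - H p)) p ∧ ∃ D : E n →L[ℝ] E n,
      HasFDerivAt (fun q => w i q • (M i q - H p)) D p ∧
      ‖(L.symm : E n →L[ℝ] E n) ∘L D - w i p • ContinuousLinearMap.id ℝ (E n)‖ ≤
        w i p * (1 / 2) + 1 / (4 * s.card) := by
    intro i hi
    rcases h i hi with h0 | ⟨h1, h2, D, h3, h4, h5⟩
    · have h6 : (fun q => w i q • (M i q - H p)) =ᶠ[𝓝 p] fun _ => (0 : E n) := by
        filter_upwards [h0] with q hq
        rw [hq, zero_smul]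
      refine ⟨?_, 0, ?_, ?_⟩
      · filter_upwards [h6.eventuallyEq_nhds] with y hy
        exact contDiffAt_const.congr_of_eventuallyEq hy
      · exact (hasFDerivAt_const (0 : E n) p).congr_of_eventuallyEq h6
      · have e0 : w i p = 0 := h0.self_of_nhds
        have e1 : (L.symm : E n →L[ℝ] E n) ∘L (0 : E n →L[ℝ] E n) -
            w i p • ContinuousLinearMap.id ℝ (E n) = 0 := by
          ext1 v
          simp [e0]
        rw [e1, norm_zero, e0]
        positivity
    · refine ⟨?_, w i p • D + (fderiv ℝ (w i) p).smulRight (M i p - H p), ?_, ?_⟩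
      · filter_upwards [h1, h2] with y hy1 hy2
        exact hy1.smul (hy2.sub contDiffAt_const)
      · have h6 : HasFDerivAt (w i) (fderiv ℝ (w i) p) p :=
          (h1.self_of_nhds.differentiableAt (by simp)).hasFDerivAt
        exact h6.smul (h3.sub_const (H p))
      · have h6 : (L.symm : E n →L[ℝ] E n) ∘L
            (w i p • D + (fderiv ℝ (w i) p).smulRight (M i p - H p)) -
            w i p • ContinuousLinearMap.id ℝ (E n) =
            w i p • ((L.symm : E n →L[ℝ] E n) ∘L D - ContinuousLinearMap.id ℝ (E n)) +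
              (fderiv ℝ (w i) p).smulRight (L.symm (M i p - H p)) := by
          ext1 v
          simp [smul_sub, map_smul]
          abel
        rw [h6]
        refine (norm_add_le _ _).trans (add_le_add ?_ ?_)
        · rw [norm_smul, Real.norm_of_nonneg (hw0 i hi)]
          exact mul_le_mul_of_nonneg_left h4 (hw0 i hi)
        · rw [ContinuousLinearMap.norm_smulRight_apply]
          exact h5
  choose! hS D hD hDn using key
  -- the sum
  have hsum : (fun q => ∑ i ∈ s, w i q • M i q) =ᶠ[𝓝 p]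
      fun q => H p + ∑ i ∈ s, w i q • (M i q - H p) := by
    filter_upwards [hw1] with q hq
    have : ∑ i ∈ s, w i q • (M i q - H p) = ∑ i ∈ s, w i q • M i q - (∑ i ∈ s, w i q) • H p := by
      rw [Finset.sum_smul, ← Finset.sum_sub_distrib]
      exact Finset.sum_congr rfl fun i _ => smul_sub _ _ _
    rw [this, hq, one_smul]
    abel
  have hSm : Sm (fun q => H p + ∑ i ∈ s, w i q • (M i q - H p)) p := by
    have h1 : ∀ᶠ y in 𝓝 p, ∀ i ∈ s, ContDiffAt ℝ ∞ (fun q => w i q • (M i q - H p)) y :=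
      (Finset.eventually_all s).2 hS
    filter_upwards [h1] with y hy
    exact contDiffAt_const.add (ContDiffAt.sum fun i hi => hy i hi)
  have hDer : HasFDerivAt (fun q => H p + ∑ i ∈ s, w i q • (M i q - H p)) (∑ i ∈ s, D i) p :=
    (HasFDerivAt.fun_sum fun i hi => hD i hi).const_add (H p)
  have hbij : Bijective ((∑ i ∈ s, D i : E n →L[ℝ] E n) : E n → E n) := by
    apply inv_near L
    have hw1p : ∑ i ∈ s, w i p = 1 := hw1.self_of_nhds
    have h1 : (L.symm : E n →L[ℝ] E n) ∘L (∑ i ∈ s, D i) - ContinuousLinearMap.id ℝ (E n) =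
        ∑ i ∈ s, ((L.symm : E n →L[ℝ] E n) ∘L D i - w i p • ContinuousLinearMap.id ℝ (E n)) := by
      rw [Finset.sum_sub_distrib, ← Finset.sum_smul, hw1p, one_smul]
      congr 1
      ext1 v
      simp [map_sum]
    rw [h1]
    calc _ ≤ ∑ i ∈ s, ‖(L.symm : E n →L[ℝ] E n) ∘L D i -
          w i p • ContinuousLinearMap.id ℝ (E n)‖ := norm_sum_le _ _
      _ ≤ ∑ i ∈ s, (w i p * (1 / 2) + 1 / (4 * s.card)) := Finset.sum_le_sum fun i hi => hDn i hi
      _ = 3 / 4 := by
          rw [Finset.sum_add_distrib, ← Finset.sum_mul, hw1p, Finset.sum_const, nsmul_eq_mul]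
          field_simp
          norm_num
  exact (LD_of_bij' hSm hDer hbij).congr hsum

end Pool.Agent.X175.NA
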