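import Pool.Agent.X175.NA.Glob
import Pool.Agent.Y674.SH.Final3

/-!
# Nearly affine homeomorphisms onto the ball: the compact case
-/

set_option autoImplicit false

open Set Filter Topology Metric Function MeasureTheory
open scoped Manifold ContDiff

noncomputable section

namespace Pool.Agent.X175.NA
open Pool.Agent.Y522 Pool.Agent.Y833.SH Pool.Agent.Y674.SH

/-- nearly affine maps on manifolds with boundary, at interior points -/
def NAffB (m : ℕ) {M : Type} [TopologicalSpace M] [ChartedSpace (EuclideanHalfSpace (m + 1)) M]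
    (d : M → M → ℝ) (K ε : ℝ) (R : Set ℝ) (f : M → E (m + 1)) (x : M) : Prop :=
  ∃ (A : E (m + 1) → M) (ρ : ℝ), 0 < ρ ∧ A 0 = x ∧
    IsLocalDiffeomorphAt (𝓡 (m + 1)) (𝓡∂ (m + 1)) ∞ A 0 ∧
    (∀ p q, ‖p‖ ≤ ρ → ‖q‖ ≤ ρ →
      ‖p - q‖ ≤ K * d (A p) (A q) ∧ d (A p) (A q) ≤ K * ‖p - q‖) ∧
    ∀ p, ‖p‖ ≤ ρ → ∀ r ∈ R, 0 < r → r ≤ ρ → ∃ L : E (m + 1) ≃L[ℝ] E (m + 1),
      ∀ y, ‖y‖ ≤ r → ‖L.symm (f (A (p + y)) - f (A p)) - y‖ ≤ ε * r

/-- the smoothing statement for given constants -/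
def SN (n : ℕ) (K ε : ℝ) : Prop :=
    ∀ (X : Type) [TopologicalSpace X] [T2Space X] [ChartedSpace (E n) X] [IsManifold (𝓡 n) ∞ X]
      (d : X → X → ℝ) (R : Set ℝ) (F : X → E n), (∀ η : ℝ, 0 < η → ∃ r ∈ R, 0 < r ∧ r < η) →
      IsOpenEmbedding F → IsPreconnected (range F) →
      (∀ x, ¬ LD n F x → NAff n d K ε R F x) → IsCompact {x | ¬ LD n F x} →
      ∃ (F' : X → E n) (C : Set X), IsCompact C ∧ Continuous F' ∧ Injective F' ∧
        range F' = range F ∧ (∀ p, p ∉ C → F' p = F p) ∧ ∀ x, LD n F' x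

theorem ncore {K ε : ℝ} (m : ℕ) (hG : SN (m + 1) K ε) (M N X : Type) [TopologicalSpace M]
    [TopologicalSpace N] [TopologicalSpace X]
    [ChartedSpace (EuclideanHalfSpace (m + 1)) M] [ChartedSpace (EuclideanHalfSpace (m + 1)) N]
    [ChartedSpace (E (m + 1)) X]
    [IsManifold (𝓡∂ (m + 1)) ∞ M] [IsManifold (𝓡∂ (m + 1)) ∞ N] [IsManifold (𝓡 (m + 1)) ∞ X]
    (d : M → M → ℝ) (R : Set ℝ) (hR : ∀ η : ℝ, 0 < η → ∃ r ∈ R, 0 < r ∧ r < η)
    (ι : X → M) (hι : Injective ι) (hιr : range ι = (𝓡∂ (m + 1)).interior M)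
    (hιd : ∀ x, IsLocalDiffeomorphAt (𝓡 (m + 1)) (𝓡∂ (m + 1)) ∞ ι x)
    (h : M ≃ₜ closedBall (0 : E (m + 1)) 1) (j : N ≃ₜ closedBall (0 : E (m + 1)) 1)
    (hj : ∀ y ∈ (𝓡∂ (m + 1)).interior N,
      IsLocalDiffeomorphAt (𝓡∂ (m + 1)) (𝓡 (m + 1)) ∞ (fun y => (j y : E (m + 1))) y)
    (hb : ∀ x ∉ (𝓡∂ (m + 1)).interior M,
      IsLocalDiffeomorphAt (𝓡∂ (m + 1)) (𝓡∂ (m + 1)) ∞ (fun x => j.symm (h x)) x)
    (hc : ∀ x ∈ (𝓡∂ (m + 1)).interior M,
      IsLocalDiffeomorphAt (𝓡∂ (m + 1)) (𝓡 (m + 1)) ∞ (fun x => (h x : E (m + 1))) x ∨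
      NAffB m d K ε R (fun x => (h x : E (m + 1))) x) :
    Nonempty (Diffeomorph (𝓡∂ (m + 1)) (𝓡∂ (m + 1)) M N ∞) := by
  classical
  have hK := nonLD_compact m M N X ι hι hιr hιd h j hj hb
  have hMi : ∀ x, x ∈ (𝓡∂ (m + 1)).interior M ↔ ‖(h x : E (m + 1))‖ < 1 :=
    int_iff (𝓡∂ (m + 1)) inferInstance h
  have : T2Space M := h.symm.t2Space
  have : CompactSpace M := h.symm.compactSpace
  have hιc : Continuous ι := continuous_iff_continuousAt.2 fun x => (hιd x).contMDiffAt.continuousAt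
  have : T2Space X := T2Space.of_injective_continuous hι hιc
  have hιo : IsOpenMap ι := IsLocalDiffeomorph.isOpenMap (I := 𝓡 (m + 1)) (J := 𝓡∂ (m + 1))
    (n := ∞) hιd
  have hemb : IsOpenEmbedding ι := IsOpenEmbedding.of_continuous_injective_isOpenMap hιc hι hιo
  have hmem : ∀ x, ι x ∈ (𝓡∂ (m + 1)).interior M := fun x => hιr ▸ mem_range_self x
  obtain ⟨F, hF⟩ : ∃ F : X → E (m + 1), F = fun x => (h (ι x) : E (m + 1)) := ⟨_, rfl⟩
  have hFe : ∀ x, F x = h (ι x) := fun x => by rw [hF]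
  rw [← hF] at hK
  have hFn : ∀ x, ‖F x‖ < 1 := fun x => by rw [hFe]; exact (hMi _).1 (hmem x)
  have hFc : Continuous F := by
    rw [hF]
    exact continuous_subtype_val.comp (h.continuous.comp hιc)
  have hFi : Injective F := by
    intro a b hab
    rw [hFe, hFe] at hab
    exact hι (h.injective (Subtype.ext hab))
  have hFr : range F = ball 0 1 := by
    ext y
    constructor
    · rintro ⟨x, rfl⟩
      rw [mem_ball_zero_iff]
      exact hFn x
    · intro hy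
      rw [mem_ball_zero_iff] at hy
      have hyc : y ∈ closedBall (0 : E (m + 1)) 1 := by
        rw [mem_closedBall_zero_iff]
        exact hy.le
      have h1 : h.symm ⟨y, hyc⟩ ∈ range ι := by
        rw [hιr, hMi, h.apply_symm_apply]
        exact hy
      obtain ⟨x, hx⟩ := h1
      refine ⟨x, ?_⟩
      rw [hFe, hx, h.apply_symm_apply]
  have hFo : IsOpenMap F := by
    intro U hU
    obtain ⟨W, hW, hWU⟩ := isOpen_induced_iff.1 (h.isOpenMap _ (hιo U hU))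
    have : F '' U = W ∩ ball 0 1 := by
      ext y
      constructor
      · rintro ⟨x, hx, rfl⟩
        refine ⟨?_, ?_⟩
        · have : h (ι x) ∈ h '' (ι '' U) := ⟨ι x, ⟨x, hx, rfl⟩, rfl⟩
          rw [← hWU] at this
          rw [hFe]
          exact this
        · rw [mem_ball_zero_iff]
          exact hFn x
      · rintro ⟨h1, h2⟩
        rw [← hFr] at h2
        obtain ⟨x, rfl⟩ := h2
        have h3 : h (ι x) ∈ Subtype.val ⁻¹' W := by
          rw [mem_preimage, ← hFe]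
          exact h1
        rw [hWU] at h3
        obtain ⟨_, ⟨x', hx', rfl⟩, h4⟩ := h3
        refine ⟨x', hx', ?_⟩
        rw [hFe, hFe, h4]
    rw [this]
    exact hW.inter isOpen_ball
  have hFe' : IsOpenEmbedding F := IsOpenEmbedding.of_continuous_injective_isOpenMap hFc hFi hFo
  have hD : ∀ x, ¬ LD (m + 1) F x → NAff (m + 1) (fun x y => d (ι x) (ι y)) K ε R F x := by
    intro x hxL
    rcases hc (ι x) (hmem x) with h' | ⟨A, ρ, hρ, hA0, hAd, hAl, hA⟩
    · exfalso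
      apply hxL
      rw [hF]
      exact IsLocalDiffeomorphAt.comp (𝓡 (m + 1)) (E (m + 1)) (hιd x) h'
    -- the local inverse of the inclusion
    have ha := (hιd x).localInverse_isLocalDiffeomorphAt
    have hax : (hιd x).localInverse (ι x) = x :=
      (hιd x).localInverse_left_inv (hιd x).localInverse_mem_target
    have hA' : LD (m + 1) ((hιd x).localInverse ∘ A) 0 := by
      rw [← hA0] at ha
      exact IsLocalDiffeomorphAt.comp (𝓡 (m + 1)) X hAd ha
    have hev : ∀ᶠ z in 𝓝 (0 : E (m + 1)), ι ((hιd x).localInverse (A z)) = A z := by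
      have h1 : A 0 ∈ (hιd x).localInverse.source := by
        rw [hA0]
        exact (hιd x).localInverse_mem_source
      filter_upwards [hAd.contMDiffAt.continuousAt
        ((hιd x).localInverse.open_source.mem_nhds h1)] with z hz
      exact (hιd x).localInverse_right_inv hz
    obtain ⟨δ, hδ, hδe⟩ := Metric.eventually_nhds_iff_ball.1 hev
    have hmin : 0 < min ρ (δ / 4) := lt_min hρ (by positivity)
    have e0 : ∀ z : E (m + 1), ‖z‖ < δ → ι (((hιd x).localInverse ∘ A) z) = A z := by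
      intro z hz
      exact hδe z (mem_ball_zero_iff.2 hz)
    refine ⟨(hιd x).localInverse ∘ A, min ρ (δ / 4), hmin, ?_, hA', ?_, ?_⟩
    · rw [comp_apply, hA0, hax]
    · intro p q hp hq
      have h1 := min_le_right ρ (δ / 4)
      simp only [e0 p (by linarith), e0 q (by linarith)]
      exact hAl p q (hp.trans (min_le_left _ _)) (hq.trans (min_le_left _ _))
    · intro p hp r hrR hr0 hr
      obtain ⟨L, hL⟩ := hA p (hp.trans (min_le_left _ _)) r hrR hr0 (hr.trans (min_le_left _ _))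
      refine ⟨L, fun y hy => ?_⟩
      have h1 := min_le_right ρ (δ / 4)
      have h2 : ‖p + y‖ < δ := by
        have := norm_add_le p y
        linarith
      rw [hFe, hFe, e0 p (by linarith), e0 _ h2]
      exact hL y hy
  obtain ⟨F', C, hC, -, hF'i, hF'r, hF'C, hF'd⟩ := hG X (fun x y => d (ι x) (ι y)) R F hR hFe'
    (by rw [hFr]; exact (convex_ball _ _).isPreconnected) hD hK
  refine glue m M N X ι hι hιr hιd h j hj hb F' C hC hF'i ?_ ?_ hF'd
  · rw [hF'r, hF]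
  · intro x hx
    rw [hF'C x hx, hFe]

/-- **The compact case**, nearly affine homeomorphisms. -/
theorem ncompact (m : ℕ) (K : ℝ) (hK : 0 < K) : ∃ ε : ℝ, 0 < ε ∧ ∀ (M N : Type)
    [TopologicalSpace M] [TopologicalSpace N]
    [ChartedSpace (EuclideanHalfSpace (m + 1)) M] [ChartedSpace (EuclideanHalfSpace (m + 1)) N]
    [IsManifold (𝓡∂ (m + 1)) ∞ M] [IsManifold (𝓡∂ (m + 1)) ∞ N]
    (d : M → M → ℝ) (R : Set ℝ) (_ : ∀ η : ℝ, 0 < η → ∃ r ∈ R, 0 < r ∧ r < η)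
    (h : M ≃ₜ closedBall (0 : E (m + 1)) 1) (j : N ≃ₜ closedBall (0 : E (m + 1)) 1),
    (∀ y ∈ (𝓡∂ (m + 1)).interior N,
      IsLocalDiffeomorphAt (𝓡∂ (m + 1)) (𝓡 (m + 1)) ∞ (fun y => (j y : E (m + 1))) y) →
    (∀ x ∉ (𝓡∂ (m + 1)).interior M,
      IsLocalDiffeomorphAt (𝓡∂ (m + 1)) (𝓡∂ (m + 1)) ∞ (fun x => j.symm (h x)) x) →
    (∀ x ∈ (𝓡∂ (m + 1)).interior M,
      IsLocalDiffeomorphAt (𝓡∂ (m + 1)) (𝓡 (m + 1)) ∞ (fun x => (h x : E (m + 1))) x ∨
      NAffB m d K ε R (fun x => (h x : E (m + 1))) x) →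
    Nonempty (Diffeomorph (𝓡∂ (m + 1)) (𝓡∂ (m + 1)) M N ∞) := by
  obtain ⟨ε, hε, hG⟩ := nglob (m + 1) K hK
  refine ⟨ε, hε, ?_⟩
  intro M N _ _ _ _ _ _ d R hR h j hj hb hc
  let := csI (M := M) (𝓡∂ (m + 1))
  have := mfI (M := M) (𝓡∂ (m + 1))
  exact ncore m hG M N ((𝓡∂ (m + 1)).interior M) d R hR Subtype.val Subtype.val_injective
    Subtype.range_val (fun x => ldiff_val (𝓡∂ (m + 1)) x) h j hj hb hc

end Pool.Agent.X175.NA
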