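import Pool.Agent.X175.NA.Loc2
import Pool.Agent.Y702.SH.GlobV

/-!
# Nearly affine open embeddings can be smoothed
-/

set_option autoImplicit false

open Set Filter Topology Metric Function MeasureTheory
open scoped Manifold ContDiff

noncomputable section

namespace Pool.Agent.X175.NA

open Pool.Agent.Y522

section defs

variable (n : ℕ) {X : Type} [TopologicalSpace X] [ChartedSpace (E n) X]

/-- `F` is nearly affine at `x` at the scales in `R`: there is a smooth parametrization `A` around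
`x`, `K`-bi-Lipschitz for the distance `d`, such that on the balls of radius `r ∈ R` about the points
`A p` near `x` the map `F` is, up to an invertible affine map, within `ε r` of the identity -/
def NAff (d : X → X → ℝ) (K ε : ℝ) (R : Set ℝ) (F : X → E n) (x : X) : Prop :=
  ∃ (A : E n → X) (ρ : ℝ), 0 < ρ ∧ A 0 = x ∧ LD n A 0 ∧
    (∀ p q, ‖p‖ ≤ ρ → ‖q‖ ≤ ρ →
      ‖p - q‖ ≤ K * d (A p) (A q) ∧ d (A p) (A q) ≤ K * ‖p - q‖) ∧
    ∀ p, ‖p‖ ≤ ρ → ∀ r ∈ R, 0 < r → r ≤ ρ → ∃ L : E n ≃L[ℝ] E n,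
      ∀ y, ‖y‖ ≤ r → ‖L.symm (F (A (p + y)) - F (A p)) - y‖ ≤ ε * r

end defs

variable {n : ℕ} {X : Type} [TopologicalSpace X] [ChartedSpace (E n) X]

lemma exists_GC {A : E n → X} (hA : LD n A 0) {ρ : ℝ} (hρ : 0 < ρ) :
    ∃ δ, GC A δ ∧ 4 * δ ≤ ρ := by
  obtain ⟨u, hu, hi⟩ := hA.eventually_injOn
  obtain ⟨η, hη, hb⟩ := Metric.mem_nhds_iff.1 (Filter.inter_mem hu hA.eventually)
  refine ⟨min (η / 8) (ρ / 4), ⟨by positivity, ?_, ?_⟩, ?_⟩
  · apply hi.mono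
    intro z hz
    rw [mem_closedBall_zero_iff] at hz
    refine (hb ?_).1
    rw [mem_ball_zero_iff]
    have := min_le_left (η / 8) (ρ / 4)
    linarith
  · intro z hz
    rw [mem_closedBall_zero_iff] at hz
    refine (hb ?_).2
    rw [mem_ball_zero_iff]
    have := min_le_left (η / 8) (ρ / 4)
    linarith
  · have := min_le_right (η / 8) (ρ / 4)
    linarith


lemma lip_bound {f : E n → E n} {D : E n →L[ℝ] E n} {x : E n} (hf : HasFDerivAt f D x) {K : ℝ}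
    (hK : 0 ≤ K) (h : ∀ᶠ y in 𝓝 x, ‖f y - f x‖ ≤ K * ‖y - x‖) : ‖D‖ ≤ K :=
  hf.le_of_lip' hK h

omit [TopologicalSpace X] [ChartedSpace (E n) X] in
lemma tr_lip {d : X → X → ℝ} {K : ℝ} (hK : 0 < K) {B A : E n → X} {δ ρ ρ' : ℝ} {T S : E n → E n}
    (hTr : Tr B A δ T S) (hδ : 3 * δ ≤ ρ') (hρ : 0 < ρ)
    (hA : ∀ p q, ‖p‖ ≤ ρ → ‖q‖ ≤ ρ →
      ‖p - q‖ ≤ K * d (A p) (A q) ∧ d (A p) (A q) ≤ K * ‖p - q‖)
    (hB : ∀ p q, ‖p‖ ≤ ρ' → ‖q‖ ≤ ρ' →
      ‖p - q‖ ≤ K * d (B p) (B q) ∧ d (B p) (B q) ≤ K * ‖p - q‖)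
    (D : E n ≃L[ℝ] E n) (hD : HasFDerivAt T (D : E n →L[ℝ] E n) 0) :
    ‖(D : E n →L[ℝ] E n)‖ ≤ K ^ 2 ∧ ‖(D.symm : E n →L[ℝ] E n)‖ ≤ K ^ 2 := by
  have hn : ∀ᶠ q in 𝓝 (0 : E n), ‖q‖ ≤ ρ := by
    have h2 : Tendsto (fun p : E n => ‖p‖) (𝓝 0) (𝓝 ‖(0 : E n)‖) := continuous_norm.continuousAt
    rw [norm_zero] at h2
    exact (h2.eventually (gt_mem_nhds hρ)).mono fun q hq => le_of_lt hq
  obtain ⟨e1, e2⟩ := hTr.eq.self_of_nhds
  have key : ∀ᶠ q in 𝓝 (0 : E n), ‖T q - T 0‖ ≤ K ^ 2 * ‖q - 0‖ ∧ ‖q - 0‖ ≤ K ^ 2 * ‖T q - T 0‖ := by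
    filter_upwards [hTr.eq, hn] with q hq hqn
    have a1 := hA q 0 hqn (by simpa using hρ.le)
    have b1 := hB (T q) (T 0) (by linarith [hq.2]) (by linarith)
    rw [hq.1, e1] at b1
    constructor
    · calc ‖T q - T 0‖ ≤ K * d (A q) (A 0) := b1.1
        _ ≤ K * (K * ‖q - 0‖) := by gcongr; exact a1.2
        _ = _ := by ring
    · calc ‖q - 0‖ ≤ K * d (A q) (A 0) := a1.1
        _ ≤ K * (K * ‖T q - T 0‖) := by gcongr; exact b1.2
        _ = _ := by ring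
  constructor
  · exact lip_bound hD (by positivity) (key.mono fun q hq => hq.1)
  · have hS0 : S (T 0) = 0 := hTr.left.self_of_nhds
    have hDS : HasFDerivAt S (D.symm : E n →L[ℝ] E n) (T 0) := by
      apply HasFDerivAt.of_local_left_inverse hTr.ldS.continuousAt _ hTr.right
      rw [hS0]
      exact hD
    refine lip_bound hDS (by positivity) ?_
    have h3 : ∀ᶠ w in 𝓝 (T 0), ‖T (S w) - T 0‖ ≤ K ^ 2 * ‖S w - 0‖ ∧
        ‖S w - 0‖ ≤ K ^ 2 * ‖T (S w) - T 0‖ := by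
      have h4 : Tendsto S (𝓝 (T 0)) (𝓝 0) := by
        have := hTr.ldS.continuousAt
        rw [ContinuousAt, hS0] at this
        exact this
      exact h4.eventually key
    filter_upwards [h3, hTr.right] with w hw hw'
    rw [hw'] at hw
    rw [hS0]
    exact hw.2

variable [T2Space X]
variable {N : ℕ} (B : Fin N → E n → X) (δ : Fin N → ℝ) (h : ∀ k, GC (B k) (δ k)) (F : X → E n)

/-- the claim at a point: parametrizations with small-scale frames -/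
lemma claim_bad (hF : Continuous F) {d : X → X → ℝ} {K₀ K ε : ℝ} (hK₀ : 0 < K₀) (hK : 1 ≤ K)
    (hKK : K₀ ^ 2 ≤ K) (hε : KLc n K ε) {R : Set ℝ} {ρ' : Fin N → ℝ} (hδ : ∀ k, 4 * δ k ≤ ρ' k)
    (hB : ∀ k, ∀ p q, ‖p‖ ≤ ρ' k → ‖q‖ ≤ ρ' k →
      ‖p - q‖ ≤ K₀ * d (B k p) (B k q) ∧ d (B k p) (B k q) ≤ K₀ * ‖p - q‖) {x : X}
    (hx : NAff n d K₀ (ε / (4 * K)) R F x) (hc : ∃ k, x ∈ B k '' ball 0 (δ k)) :
    ∃ A : E n → X, LD n A 0 ∧ A 0 = x ∧ ∀ᶠ pr : E n × ℝ in 𝓝 (0 : E n) ×ˢ 𝓝[>] (0 : ℝ),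
      4 * K * pr.2 ∈ R → LD n (FF B δ h F pr.2) (A pr.1) := by
  obtain ⟨A, ρ, hρ, hA0, hA, hAl, hAn⟩ := hx
  refine ⟨A, hA, hA0, local_claim B δ h F hF K hK ε hε A hA ?_ (fun r => 4 * K * r ∈ R) ?_⟩
  · intro k hk
    obtain ⟨T, S, hTr⟩ := exists_tr (h k) hA hk
    refine ⟨T, S, hTr, fun D hD => ?_⟩
    have h1 := tr_lip hK₀ hTr (ρ' := ρ' k) (by linarith [hδ k, (h k).pos]) hρ hAl (hB k) D hD
    exact ⟨h1.1.trans hKK, h1.2.trans hKK⟩
  · have hn : ∀ᶠ q in 𝓝 (0 : E n), ‖q‖ ≤ ρ := by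
      have h2 : Tendsto (fun p : E n => ‖p‖) (𝓝 0) (𝓝 ‖(0 : E n)‖) := continuous_norm.continuousAt
      rw [norm_zero] at h2
      exact (h2.eventually (gt_mem_nhds hρ)).mono fun q hq => le_of_lt hq
    have hr1 : ∀ᶠ r in 𝓝[>] (0 : ℝ), 0 < r := self_mem_nhdsWithin
    have hr2 : ∀ᶠ r in 𝓝[>] (0 : ℝ), r < ρ / (4 * K) :=
      mem_nhdsWithin_of_mem_nhds (gt_mem_nhds (by positivity))
    have hw : ∀ᶠ y in 𝓝 x, wt B δ h none y = 0 := by
      obtain ⟨k, hk⟩ := hc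
      have ho : IsOpen (B k '' ball 0 (δ k)) := by
        apply isOpen_image_of_LD (n := n) isOpen_ball
        intro z hz
        apply (h k).ld
        rw [mem_ball_zero_iff] at hz
        rw [mem_closedBall_zero_iff]
        linarith [(h k).pos]
      filter_upwards [ho.mem_nhds hk] with y hy
      obtain ⟨z, hz, rfl⟩ := hy
      rw [mem_ball_zero_iff] at hz
      change ∏ j, (1 - bf (B j) (δ j) (h j).pos (B k z)) = 0
      apply Finset.prod_eq_zero (Finset.mem_univ k)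
      rw [bf_one (h k) hz.le, sub_self]
    have hw' : ∀ᶠ q in 𝓝 (0 : E n), wt B δ h none (A q) = 0 := by
      rw [← hA0] at hw
      exact hA.continuousAt.eventually hw
    filter_upwards [hn.prod_inl _, hr1.prod_inr _, hr2.prod_inr _, hw'.eventually_nhds.prod_inl _]
      with pr h1 h2 h3 h4 hQ
    obtain ⟨L, hL⟩ := hAn pr.1 h1 _ hQ (by positivity) (by
      rw [lt_div_iff₀ (by positivity)] at h3
      linarith)
    refine ⟨L, ?_, Or.inl h4⟩
    intro y hy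
    refine (hL y hy).trans (le_of_eq ?_)
    field_simp

lemma claim_good (hF : Continuous F) (Q : ℝ → Prop) {x : X} (hx : LD n F x) :
    ∃ A : E n → X, LD n A 0 ∧ A 0 = x ∧ ∀ᶠ pr : E n × ℝ in 𝓝 (0 : E n) ×ˢ 𝓝[>] (0 : ℝ),
      Q pr.2 → LD n (FF B δ h F pr.2) (A pr.1) := by
  obtain ⟨P, hP, hP0, -, hP2⟩ := hx.exists_inverse
  have hA : LD n (fun q => P (q + F x)) 0 := by
    refine LD.comp_fun (g := P) (f := fun q : E n => q + F x) ?_ (LD_add_const _ _)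
    rw [zero_add]
    exact hP
  have hA0 : P (0 + F x) = x := by rw [zero_add, hP0]
  have hH : ∀ᶠ q in 𝓝 (0 : E n), F (P (q + F x)) = q + F x := by
    have h1 : Tendsto (fun q : E n => q + F x) (𝓝 0) (𝓝 (F x)) := by
      have : Continuous (fun q : E n => q + F x) := by fun_prop
      simpa using this.tendsto 0
    exact h1.eventually hP2
  -- the constant
  have hT : ∀ k : Fin N, ∃ Kk : ℝ, (fun q => P (q + F x)) 0 ∈ B k '' closedBall 0 (2 * δ k) →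
      ∃ T S, Tr (B k) (fun q => P (q + F x)) (δ k) T S ∧
      ∀ D : E n ≃L[ℝ] E n, HasFDerivAt T (D : E n →L[ℝ] E n) 0 →
        ‖(D : E n →L[ℝ] E n)‖ ≤ Kk ∧ ‖(D.symm : E n →L[ℝ] E n)‖ ≤ Kk := by
    intro k
    by_cases hk : (fun q => P (q + F x)) 0 ∈ B k '' closedBall 0 (2 * δ k)
    · obtain ⟨T, S, hTr⟩ := exists_tr (h k) hA hk
      obtain ⟨D0, hD0⟩ := hTr.ldT.exists_equiv
      refine ⟨max ‖(D0 : E n →L[ℝ] E n)‖ ‖(D0.symm : E n →L[ℝ] E n)‖, fun _ =>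
        ⟨T, S, hTr, fun D hD => ?_⟩⟩
      have : D = D0 := by
        apply ContinuousLinearEquiv.coe_injective
        exact hD.unique hD0
      rw [this]
      exact ⟨le_max_left _ _, le_max_right _ _⟩
    · exact ⟨0, fun h' => absurd h' hk⟩
  choose Kk hKk using hT
  obtain ⟨M, hM⟩ := Finite.bddAbove_range Kk
  obtain ⟨K, hK⟩ : ∃ K, K = max 1 M := ⟨_, rfl⟩
  have hK1 : 1 ≤ K := by rw [hK]; exact le_max_left _ _
  have hKM : ∀ k, Kk k ≤ K := fun k => by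
    rw [hK]
    exact (hM (mem_range_self k)).trans (le_max_right _ _)
  obtain ⟨ε, hε0, -, hε⟩ := KLc_exists n K hK1
  refine ⟨fun q => P (q + F x), hA, hA0, local_claim B δ h F hF K hK1 ε hε _ hA ?_ Q ?_⟩
  · intro k hk
    obtain ⟨T, S, hTr, hD⟩ := hKk k hk
    exact ⟨T, S, hTr, fun D hD' => ⟨(hD D hD').1.trans (hKM k), (hD D hD').2.trans (hKM k)⟩⟩
  · obtain ⟨η, hη, hb⟩ := Metric.eventually_nhds_iff_ball.1 hH
    have h1 : ∀ᶠ q in 𝓝 (0 : E n), ‖q‖ < η / 2 := by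
      have h2 : Tendsto (fun p : E n => ‖p‖) (𝓝 0) (𝓝 ‖(0 : E n)‖) := continuous_norm.continuousAt
      rw [norm_zero] at h2
      exact h2.eventually (gt_mem_nhds (by positivity))
    have hr1 : ∀ᶠ r in 𝓝[>] (0 : ℝ), 0 < r := self_mem_nhdsWithin
    have hr2 : ∀ᶠ r in 𝓝[>] (0 : ℝ), r < (η / 2) / (4 * K) :=
      mem_nhdsWithin_of_mem_nhds (gt_mem_nhds (by positivity))
    filter_upwards [h1.prod_inl _, hr1.prod_inr _, hr2.prod_inr _, hH.eventually_nhds.prod_inl _]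
      with pr h1 h2 h3 h4 _
    refine ⟨ContinuousLinearEquiv.refl ℝ (E n), ?_, Or.inr ⟨?_, ?_⟩⟩
    · intro y hy
      rw [lt_div_iff₀ (by positivity)] at h3
      have e1 : F (P (pr.1 + y + F x)) = pr.1 + y + F x := by
        apply hb
        rw [mem_ball_zero_iff]
        calc ‖pr.1 + y‖ ≤ ‖pr.1‖ + ‖y‖ := norm_add_le _ _
          _ < η / 2 + η / 2 := by linarith
          _ = η := by ring
      have e2 : F (P (pr.1 + F x)) = pr.1 + F x := h4.self_of_nhds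
      have e3 : (ContinuousLinearEquiv.refl ℝ (E n)).symm (F (P (pr.1 + y + F x)) -
          F (P (pr.1 + F x))) - y = 0 := by
        rw [e1, e2]
        change (pr.1 + y + F x - (pr.1 + F x)) - y = 0
        abel
      simp only at e3 ⊢
      rw [e3, norm_zero]
      positivity
    · filter_upwards [h4.eventually_nhds] with y hy
      have : (fun q => F (P (q + F x))) =ᶠ[𝓝 y] fun q => q + F x := hy
      exact (contDiffAt_id.add contDiffAt_const).congr_of_eventuallyEq this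
    · have : (fun q => F (P (q + F x))) =ᶠ[𝓝 pr.1] fun q => q + F x := h4
      exact ((hasFDerivAt_id pr.1).add_const (F x)).congr_of_eventuallyEq this

omit [T2Space X] in
/-- the glued map is close to `F` if the mollified maps are -/
lemma FF_close {r e : ℝ} (he : 0 ≤ e)
    (hc : ∀ k, ∀ z : E n, ‖z‖ < 3 * δ k → ‖Mo n (GG B δ F k) r z - F (B k z)‖ ≤ e) (x : X) :
    ‖FF B δ h F r x - F x‖ ≤ e := by
  have h1 : ∀ i, ‖MM B δ F r i x - F x‖ ≤ e := by
    intro i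
    rcases i with _ | k
    · have : MM B δ F r none x - F x = 0 := sub_self _
      rw [this, norm_zero]
      exact he
    · by_cases hz : ∃ z, ‖z‖ < 3 * δ k ∧ B k z = x
      · obtain ⟨z, hz, rfl⟩ := hz
        have : MM B δ F r (some k) (B k z) = Mo n (GG B δ F k) r z := pb_eq (h k) _ _ hz
        rw [this]
        exact hc k z hz
      · have : MM B δ F r (some k) x = F x := by
          change pb (B k) (δ k) (Mo n (GG B δ F k) r) F x = F x
          unfold pb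
          rw [dif_neg hz]
        rw [this, sub_self, norm_zero]
        exact he
  have h2 : FF B δ h F r x - F x = ∑ i, wt B δ h i x • (MM B δ F r i x - F x) := by
    have h3 : ∑ i, wt B δ h i x • (MM B δ F r i x - F x) =
        ∑ i, wt B δ h i x • MM B δ F r i x - (∑ i, wt B δ h i x) • F x := by
      rw [Finset.sum_smul, ← Finset.sum_sub_distrib]
      exact Finset.sum_congr rfl fun i _ => smul_sub _ _ _
    rw [h3, wt_sum, one_smul]
    rfl
  rw [h2]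
  calc _ ≤ ∑ i, ‖wt B δ h i x • (MM B δ F r i x - F x)‖ := norm_sum_le _ _
    _ ≤ ∑ i, wt B δ h i x * e := by
        apply Finset.sum_le_sum
        intro i _
        rw [norm_smul, Real.norm_of_nonneg (wt_nonneg B δ h i x)]
        exact mul_le_mul_of_nonneg_left (h1 i) (wt_nonneg B δ h i x)
    _ = e := by rw [← Finset.sum_mul, wt_sum, one_mul]

omit [T2Space X] in
include h in
/-- uniform closeness for small radii -/
lemma unif_close (hF : Continuous F) (k : Fin N) {e : ℝ} (he : 0 < e) :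
    ∀ᶠ r in 𝓝[>] (0 : ℝ), ∀ z : E n, ‖z‖ < 3 * δ k →
      ‖Mo n (GG B δ F k) r z - F (B k z)‖ ≤ e := by
  have hd := (h k).pos
  have hc : ContinuousOn (fun z => F (B k z)) (closedBall 0 (4 * δ k)) :=
    hF.comp_continuousOn (h k).cont
  have hu := (isCompact_closedBall (0 : E n) (4 * δ k)).uniformContinuousOn_of_continuous hc
  rw [Metric.uniformContinuousOn_iff] at hu
  obtain ⟨η, hη, hu⟩ := hu e he
  have hr1 : ∀ᶠ r in 𝓝[>] (0 : ℝ), 0 < r := self_mem_nhdsWithin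
  have hr2 : ∀ᶠ r in 𝓝[>] (0 : ℝ), r < min η (δ k) :=
    mem_nhdsWithin_of_mem_nhds (gt_mem_nhds (by positivity))
  filter_upwards [hr1, hr2] with r h1 h2 z hz
  rw [lt_min_iff] at h2
  have hGz : GG B δ F k z = F (B k z) := GG_eq B δ F k (by linarith)
  rw [← hGz]
  apply mo_close (GG_int B δ h F hF k) h1
  intro y hy
  have hzy : ‖z + y‖ ≤ 4 * δ k := (norm_add_le _ _).trans (by linarith)
  rw [GG_eq B δ F k hzy, hGz, ← dist_eq_norm]
  apply le_of_lt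
  apply hu _ (mem_closedBall_zero_iff.2 hzy) _ (mem_closedBall_zero_iff.2 (by linarith))
  rw [dist_eq_norm, add_sub_cancel_left]
  linarith

/-- **Smoothing of nearly affine open embeddings.** -/
theorem nglob (n : ℕ) (K₀ : ℝ) (hK₀ : 0 < K₀) : ∃ ε₀ : ℝ, 0 < ε₀ ∧
    ∀ (X : Type) [TopologicalSpace X] [T2Space X] [ChartedSpace (E n) X] [IsManifold (𝓡 n) ∞ X]
      (d : X → X → ℝ) (R : Set ℝ) (F : X → E n), (∀ η : ℝ, 0 < η → ∃ r ∈ R, 0 < r ∧ r < η) →
      IsOpenEmbedding F → IsPreconnected (range F) →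
      (∀ x, ¬ LD n F x → NAff n d K₀ ε₀ R F x) → IsCompact {x | ¬ LD n F x} →
      ∃ (F' : X → E n) (C : Set X), IsCompact C ∧ Continuous F' ∧ Injective F' ∧
        range F' = range F ∧ (∀ p, p ∉ C → F' p = F p) ∧ ∀ x, LD n F' x := by
  classical
  obtain ⟨K, hKdef⟩ : ∃ K, K = max 1 (K₀ ^ 2) := ⟨_, rfl⟩
  have hK : 1 ≤ K := by rw [hKdef]; exact le_max_left _ _
  have hKK : K₀ ^ 2 ≤ K := by rw [hKdef]; exact le_max_right _ _
  obtain ⟨ε, hε0, -, hε⟩ := KLc_exists n K hK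
  refine ⟨ε / (4 * K), by positivity, ?_⟩
  intro X _ _ _ _ d R F hR hFe hFp hna hS
  have hF : Continuous F := hFe.continuous
  -- good parametrizations at the bad points
  have hch : ∀ x : {x // ¬ LD n F x}, ∃ (A : E n → X) (ρ δ : ℝ), A 0 = x ∧ GC A δ ∧ 4 * δ ≤ ρ ∧
      ∀ p q, ‖p‖ ≤ ρ → ‖q‖ ≤ ρ →
        ‖p - q‖ ≤ K₀ * d (A p) (A q) ∧ d (A p) (A q) ≤ K₀ * ‖p - q‖ := by
    rintro ⟨x, hx⟩
    obtain ⟨A, ρ, hρ, hA0, hA, hAl, -⟩ := hna x hx
    obtain ⟨δ, hδ, hδρ⟩ := exists_GC hA hρ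
    exact ⟨A, ρ, δ, hA0, hδ, hδρ, hAl⟩
  choose A ρ dl hA0 hGC hdl hAl using hch
  obtain ⟨t, ht⟩ := hS.elim_nhds_subcover' (fun x hx => A ⟨x, hx⟩ '' ball 0 (dl ⟨x, hx⟩)) (by
    intro x hx
    have ho : IsOpen (A ⟨x, hx⟩ '' ball 0 (dl ⟨x, hx⟩)) := by
      apply isOpen_image_of_LD (n := n) isOpen_ball
      intro z hz
      apply (hGC ⟨x, hx⟩).ld
      rw [mem_ball_zero_iff] at hz
      rw [mem_closedBall_zero_iff]
      linarith [(hGC ⟨x, hx⟩).pos]
    apply ho.mem_nhds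
    exact ⟨0, mem_ball_self (hGC ⟨x, hx⟩).pos, hA0 ⟨x, hx⟩⟩)
  let e := t.equivFin
  let B : Fin t.card → E n → X := fun k => A (e.symm k).1
  let δ : Fin t.card → ℝ := fun k => dl (e.symm k).1
  have h : ∀ k, GC (B k) (δ k) := fun k => hGC _
  have hcov : ∀ x, ¬ LD n F x → ∃ k, x ∈ B k '' ball 0 (δ k) := by
    intro x hx
    have h1 := ht hx
    rw [mem_iUnion₂] at h1
    obtain ⟨y, hy, hxy⟩ := h1
    refine ⟨e ⟨y, hy⟩, ?_⟩
    change x ∈ A (e.symm (e ⟨y, hy⟩)).1 '' ball 0 (dl (e.symm (e ⟨y, hy⟩)).1)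
    rw [e.symm_apply_apply]
    exact hxy
  -- the claim at every point
  have hclaim : ∀ x : X, ∃ A : E n → X, LD n A 0 ∧ A 0 = x ∧
      ∀ᶠ pr : E n × ℝ in 𝓝 (0 : E n) ×ˢ 𝓝[>] (0 : ℝ),
        4 * K * pr.2 ∈ R → LD n (FF B δ h F pr.2) (A pr.1) := by
    intro x
    by_cases hx : LD n F x
    · exact claim_good B δ h F hF (fun r => 4 * K * r ∈ R) hx
    · exact claim_bad B δ h F hF hK₀ hK hKK hε (ρ' := fun k => ρ (e.symm k).1)
        (fun k => hdl _) (fun k => hAl _) (hna x hx) (hcov x hx)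
  obtain ⟨C, hCdef⟩ : ∃ C : Set X, C = ⋃ k, B k '' closedBall 0 (2 * δ k) := ⟨_, rfl⟩
  have hC : IsCompact C := by
    rw [hCdef]
    exact isCompact_iUnion fun k => (h k).compact (by linarith [(h k).pos])
  have hoff : ∀ x, x ∉ C → ∀ r, FF B δ h F r =ᶠ[𝓝 x] F := by
    intro x hx r
    apply FF_off B δ h F
    intro k hk
    apply hx
    rw [hCdef, mem_iUnion]
    exact ⟨k, hk⟩
  have hgood : ∀ x, x ∉ C → LD n F x := by
    intro x hx
    by_contra hb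
    obtain ⟨k, z, hz, hzx⟩ := hcov x hb
    apply hx
    rw [hCdef, mem_iUnion]
    refine ⟨k, z, ?_, hzx⟩
    rw [mem_ball_zero_iff] at hz
    rw [mem_closedBall_zero_iff]
    linarith [(h k).pos]
  -- uniform on the compact set
  have hunif : ∀ᶠ r in 𝓝[>] (0 : ℝ), 4 * K * r ∈ R → ∀ x ∈ C, LD n (FF B δ h F r) x := by
    refine hC.induction_on (p := fun s => ∀ᶠ r in 𝓝[>] (0 : ℝ), 4 * K * r ∈ R →
      ∀ x ∈ s, LD n (FF B δ h F r) x) ?_ ?_ ?_ ?_
    · exact Eventually.of_forall fun r _ x hx => absurd hx (notMem_empty x)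
    · intro s s' hss' hs'
      filter_upwards [hs'] with r hr hQ x hx
      exact hr hQ x (hss' hx)
    · intro s s' hs hs'
      filter_upwards [hs, hs'] with r hr hr' hQ x hx
      rcases hx with hx | hx
      · exact hr hQ x hx
      · exact hr' hQ x hx
    · intro x _
      obtain ⟨A, hA, hA0, hev⟩ := hclaim x
      rw [Filter.eventually_prod_iff] at hev
      obtain ⟨pa, hpa, pb, hpb, hab⟩ := hev
      refine ⟨A '' {p | pa p}, mem_nhdsWithin_of_mem_nhds ?_, ?_⟩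
      · have := hA.image_mem_nhds hpa
        rwa [hA0] at this
      · filter_upwards [hpb] with r hr hQ y hy
        obtain ⟨p, hp, rfl⟩ := hy
        exact hab hp hr hQ
  -- closeness
  obtain ⟨e₁, he₁, hthick⟩ := (hC.image hF).exists_cthickening_subset_open hFe.isOpen_range
    (image_subset_range F C)
  have hcl : ∀ᶠ r in 𝓝[>] (0 : ℝ), ∀ k, ∀ z : E n, ‖z‖ < 3 * δ k →
      ‖Mo n (GG B δ F k) r z - F (B k z)‖ ≤ e₁ :=
    Filter.eventually_all.2 fun k => unif_close B δ h F hF k he₁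
  -- the radius
  obtain ⟨η, hη, hηr⟩ : ∃ η : ℝ, 0 < η ∧ ∀ r, 0 < r → r < η →
      (4 * K * r ∈ R → ∀ x ∈ C, LD n (FF B δ h F r) x) ∧
      ∀ k, ∀ z : E n, ‖z‖ < 3 * δ k → ‖Mo n (GG B δ F k) r z - F (B k z)‖ ≤ e₁ := by
    have h1 := hunif.and hcl
    rw [eventually_nhdsWithin_iff] at h1
    obtain ⟨η, hη, hb⟩ := Metric.eventually_nhds_iff_ball.1 h1
    refine ⟨η, hη, fun r hr0 hr1 => hb r ?_ hr0⟩
    rw [mem_ball_zero_iff, Real.norm_of_nonneg hr0.le]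
    exact hr1
  obtain ⟨r₁, hr₁R, hr₁0, hr₁η⟩ := hR (4 * K * η) (by positivity)
  obtain ⟨h1, h2⟩ := hηr (r₁ / (4 * K)) (by positivity) (by
    rw [div_lt_iff₀ (by positivity)]
    linarith)
  have h3 : 4 * K * (r₁ / (4 * K)) = r₁ := by field_simp
  rw [h3] at h1
  have hLD : ∀ x, LD n (FF B δ h F (r₁ / (4 * K))) x := by
    intro x
    by_cases hx : x ∈ C
    · exact h1 hr₁R x hx
    · exact (hgood x hx).congr (hoff x hx _)
  have hrng : ∀ x, FF B δ h F (r₁ / (4 * K)) x ∈ range F := by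
    intro x
    by_cases hx : x ∈ C
    · apply hthick
      apply mem_cthickening_of_dist_le _ (F x) _ _ (mem_image_of_mem F hx)
      rw [dist_eq_norm]
      exact FF_close B δ h F he₁.le h2 x
    · rw [(hoff x hx _).self_of_nhds]
      exact mem_range_self x
  obtain ⟨hinj, hrange⟩ := Pool.Agent.Y702.SH.coverV n X F (FF B δ h F (r₁ / (4 * K))) C hFe hFp hC
    (fun p hp => (hoff p hp _).self_of_nhds) hrng hLD
  exact ⟨FF B δ h F (r₁ / (4 * K)), C, hC, continuous_iff_continuousAt.2 fun x =>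
    (hLD x).continuousAt, hinj, hrange, fun p hp => (hoff p hp _).self_of_nhds, hLD⟩

end Pool.Agent.X175.NA
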