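import Pool.Agent.X175.NA.Mo
import Pool.Agent.Y522.Tools

/-!
# Mollification in another chart
-/

set_option autoImplicit false

open Set Filter Topology Metric Function MeasureTheory
open scoped ContDiff

noncomputable section

namespace Pool.Agent.X175.NA

open Pool.Agent.Y522

variable {n : ℕ}

/-- the radius-error condition: at `p`, on the ball of radius `ρ` the map `G` is, up to an error `e`
(measured after applying the inverse of `L`), affine with linear part `L` -/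
def NA (G : E n → E n) (p : E n) (ρ e : ℝ) (L : E n ≃L[ℝ] E n) : Prop :=
  ∀ y : E n, ‖y‖ ≤ ρ → ‖L.symm (G (p + y) - G p) - y‖ ≤ e

/-- the constants -/
theorem KL (n : ℕ) (K : ℝ) (hK : 1 ≤ K) : ∃ ε : ℝ, 0 < ε ∧ ε ≤ 1 ∧
    ∀ (T S : E n → E n) (G H : E n → E n), LD n T 0 → LD n S (T 0) → (∀ᶠ q in 𝓝 0, S (T q) = q) →
      (∀ᶠ w in 𝓝 (T 0), T (S w) = w) →
      LocallyIntegrable G volume → (∀ᶠ q in 𝓝 0, G (T q) = H q) →
      (∀ D : E n ≃L[ℝ] E n, HasFDerivAt T (D : E n →L[ℝ] E n) 0 →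
        ‖(D : E n →L[ℝ] E n)‖ ≤ K ∧ ‖(D.symm : E n →L[ℝ] E n)‖ ≤ K) →
      ∃ δ : ℝ, 0 < δ ∧ ∀ (p : E n) (r : ℝ) (L : E n ≃L[ℝ] E n), ‖p‖ < δ → 0 < r → r < δ →
        NA H p (4 * K * r) (ε * r) L →
        ∃ D : E n →L[ℝ] E n, HasFDerivAt (fun q => Mo n G r (T q)) D p ∧
          ‖(L.symm : E n →L[ℝ] E n) ∘L D - ContinuousLinearMap.id ℝ (E n)‖ ≤ 1 / 2 ∧
          ‖L.symm (Mo n G r (T p) - H p)‖ ≤ 4 * K ^ 2 * r := by
  have hC := C0_nonneg (n := n)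
  obtain ⟨C, hCd⟩ : ∃ C, C = C0 n := ⟨_, rfl⟩
  rw [← hCd] at hC
  refine ⟨1 / (16 * (C + 1) * K ^ 3), by positivity, ?_, ?_⟩
  · rw [div_le_one (by positivity)]
    have h1 : 1 ≤ K ^ 3 := one_le_pow₀ hK
    nlinarith
  intro T S G H hT hS hST hTS hG hGH hD
  obtain ⟨D0, hD0⟩ := hT.exists_equiv
  obtain ⟨hDK, hDK'⟩ := hD D0 hD0
  obtain ⟨η, hη⟩ : ∃ η : ℝ, η = 1 / (32 * (C + 1) * K ^ 3) := ⟨_, rfl⟩
  have hη0 : 0 < η := by rw [hη]; positivity
  have hK3 : 1 ≤ K ^ 3 := one_le_pow₀ hK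
  have hη1 : K * η ≤ 1 / 32 := by
    rw [hη, mul_one_div, div_le_div_iff₀ (by positivity) (by norm_num)]
    have : K ≤ K ^ 3 := le_self_pow₀ hK (by norm_num)
    nlinarith
  -- strict differentiability
  have hTs : HasStrictFDerivAt T (D0 : E n →L[ℝ] E n) 0 := by
    have h1 : ContDiffAt ℝ ∞ T 0 := hT.contDiffAt
    have h2 := h1.hasStrictFDerivAt (by simp)
    rwa [hD0.fderiv] at h2
  have hTl : ∀ᶠ pq : E n × E n in 𝓝 (0, 0),
      ‖T pq.1 - T pq.2 - D0 (pq.1 - pq.2)‖ ≤ η * ‖pq.1 - pq.2‖ :=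
    hTs.isLittleO.def hη0
  have hTd : ∀ᶠ p in 𝓝 (0 : E n), HasFDerivAt T (fderiv ℝ T p) p ∧
      ‖fderiv ℝ T p - D0‖ ≤ η := by
    have h1 : ContDiffAt ℝ ∞ T 0 := hT.contDiffAt
    have h2 : ContinuousAt (fderiv ℝ T) 0 := (h1.fderiv_right (m := 0) (by simp)).continuousAt
    have h3 : ∀ᶠ p in 𝓝 (0 : E n), ‖fderiv ℝ T p - D0‖ < η := by
      have h4 : Tendsto (fun p => ‖fderiv ℝ T p - D0‖) (𝓝 0) (𝓝 ‖fderiv ℝ T 0 - D0‖) :=
        (h2.sub continuousAt_const).norm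
      rw [hD0.fderiv, sub_self, norm_zero] at h4
      exact h4.eventually (gt_mem_nhds hη0)
    filter_upwards [h3, hT.eventually] with p hp hp'
    exact ⟨(hp'.contDiffAt.differentiableAt (by simp)).hasFDerivAt, hp.le⟩
  obtain ⟨δ₁, hδ₁, h₁⟩ : ∃ δ₁ : ℝ, 0 < δ₁ ∧ ∀ p q : E n, ‖p‖ < δ₁ → ‖q‖ < δ₁ →
      ‖T p - T q - D0 (p - q)‖ ≤ η * ‖p - q‖ := by
    obtain ⟨δ₁, hδ₁, h⟩ := Metric.eventually_nhds_iff_ball.1 hTl
    refine ⟨δ₁, hδ₁, fun p q hp hq => h (p, q) ?_⟩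
    rw [mem_ball, Prod.dist_eq]
    simp only [dist_zero_right]
    exact max_lt hp hq
  obtain ⟨δ₂, hδ₂, h₂⟩ := Metric.eventually_nhds_iff_ball.1 hTd
  obtain ⟨δ₃, hδ₃, h₃⟩ := Metric.eventually_nhds_iff_ball.1 hGH
  -- the inverse
  have hSc : ContinuousAt S (T 0) := hS.continuousAt
  have hS0 : S (T 0) = 0 := hST.self_of_nhds
  have hev : ∀ᶠ w in 𝓝 (T 0), ‖S w‖ < min δ₁ δ₃ ∧ T (S w) = w := by
    have h1 : Tendsto (fun w => ‖S w‖) (𝓝 (T 0)) (𝓝 ‖S (T 0)‖) := hSc.norm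
    rw [hS0, norm_zero] at h1
    exact (h1.eventually (gt_mem_nhds (lt_min hδ₁ hδ₃))).and hTS
  obtain ⟨δ₄, hδ₄, h₄⟩ := Metric.eventually_nhds_iff_ball.1 hev
  have hTc : ∀ᶠ p in 𝓝 (0 : E n), T p ∈ ball (T 0) (δ₄ / 2) :=
    hT.continuousAt (ball_mem_nhds _ (by positivity))
  obtain ⟨δ₅, hδ₅, h₅⟩ := Metric.eventually_nhds_iff_ball.1 hTc
  refine ⟨min (min δ₁ δ₂) (min (min δ₃ δ₅) (δ₄ / 2)), by positivity, ?_⟩
  intro p r L hp hr hrδ hNA
  simp only [lt_min_iff] at hp hrδ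
  obtain ⟨⟨hp1, hp2⟩, ⟨hp3, hp5⟩, hp4⟩ := hp
  obtain ⟨⟨hr1, hr2⟩, ⟨hr3, hr5⟩, hr4⟩ := hrδ
  have hK0 : 0 < K := by linarith
  -- displacement
  have hdisp : ∀ y : E n, ‖y‖ ≤ r → ∃ q : E n, T q = T p + y ∧ ‖q - p‖ ≤ 2 * K * r ∧
      ‖T q - T p - D0 (q - p)‖ ≤ η * ‖q - p‖ ∧ G (T p + y) = H q := by
    intro y hy
    have h6 : T p + y ∈ ball (T 0) δ₄ := by
      have h7 := h₅ p (mem_ball_zero_iff.2 hp5)
      rw [mem_ball, dist_eq_norm] at h7 ⊢
      have h8 : T p + y - T 0 = (T p - T 0) + y := by abel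
      rw [h8]
      calc ‖T p - T 0 + y‖ ≤ ‖T p - T 0‖ + ‖y‖ := norm_add_le _ _
        _ < δ₄ / 2 + δ₄ / 2 := by linarith
        _ = δ₄ := by ring
    obtain ⟨h9, h10⟩ := h₄ _ h6
    rw [lt_min_iff] at h9
    have h11 := h₁ (S (T p + y)) p h9.1 hp1
    refine ⟨S (T p + y), h10, ?_, h11, ?_⟩
    · rw [h10, add_sub_cancel_left] at h11
      obtain ⟨u, hu⟩ : ∃ u, u = S (T p + y) - p := ⟨_, rfl⟩
      rw [← hu] at h11 ⊢
      have h12 : ‖u‖ ≤ K * ‖D0 u‖ := by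
        calc ‖u‖ = ‖D0.symm (D0 u)‖ := by rw [D0.symm_apply_apply]
          _ ≤ ‖(D0.symm : E n →L[ℝ] E n)‖ * ‖D0 u‖ := (D0.symm : E n →L[ℝ] E n).le_opNorm _
          _ ≤ K * ‖D0 u‖ := by gcongr
      have h13 : ‖D0 u‖ ≤ r + η * ‖u‖ := by
        calc ‖D0 u‖ = ‖y - (y - D0 u)‖ := by rw [sub_sub_cancel]
          _ ≤ ‖y‖ + ‖y - D0 u‖ := norm_sub_le _ _
          _ ≤ r + η * ‖u‖ := by linarith
      have h14 : ‖u‖ ≤ K * r + (K * η) * ‖u‖ := by nlinarith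
      have h15 : (K * η) * ‖u‖ ≤ 1 / 32 * ‖u‖ := by gcongr
      nlinarith [norm_nonneg u]
    · rw [← h10, h₃ _ (mem_ball_zero_iff.2 h9.2), h10]
  have hHp : G (T p) = H p := h₃ p (mem_ball_zero_iff.2 hp3)
  obtain ⟨ε, hε⟩ : ∃ ε : ℝ, ε = 1 / (16 * (C + 1) * K ^ 3) := ⟨_, rfl⟩
  rw [← hε] at hNA
  have hε0 : 0 < ε := by rw [hε]; positivity
  obtain ⟨e, he⟩ : ∃ e : ℝ, e = (K * ε + 2 * K * η) * r := ⟨_, rfl⟩
  have he0 : 0 ≤ e := by rw [he]; positivity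
  have hNA' : ∀ y, ‖y‖ ≤ r → ‖(D0.symm.trans L).symm (G (T p + y) - G (T p)) - y‖ ≤ e := by
    intro y hy
    obtain ⟨q, hq1, hq2, hq3, hq4⟩ := hdisp y hy
    have h6 := hNA (q - p) (hq2.trans (by nlinarith))
    rw [add_sub_cancel] at h6
    rw [hq4, hHp]
    have h7 : (D0.symm.trans L).symm (H q - H p) - y =
        D0 (L.symm (H q - H p) - (q - p)) - (T q - T p - D0 (q - p)) := by
      rw [hq1, add_sub_cancel_left, map_sub D0]
      have : (D0.symm.trans L).symm (H q - H p) = D0 (L.symm (H q - H p)) := rfl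
      rw [this]
      abel
    rw [h7]
    calc ‖D0 (L.symm (H q - H p) - (q - p)) - (T q - T p - D0 (q - p))‖
        ≤ ‖D0 (L.symm (H q - H p) - (q - p))‖ + ‖T q - T p - D0 (q - p)‖ := norm_sub_le _ _
      _ ≤ K * (ε * r) + η * (2 * K * r) := by
          gcongr
          · calc ‖D0 (L.symm (H q - H p) - (q - p))‖
                ≤ ‖(D0 : E n →L[ℝ] E n)‖ * ‖L.symm (H q - H p) - (q - p)‖ :=
                  (D0 : E n →L[ℝ] E n).le_opNorm _
              _ ≤ K * (ε * r) := by gcongr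
          · exact hq3.trans (by gcongr)
      _ = e := by rw [he]; ring
  obtain ⟨D, hD1, hD2, hD3⟩ := mo_main hG hr (T p) (D0.symm.trans L) hNA'
  obtain ⟨hTp, hTp'⟩ := h₂ p (mem_ball_zero_iff.2 hp2)
  refine ⟨D ∘L fderiv ℝ T p, hD1.comp p hTp, ?_, ?_⟩
  · obtain ⟨E1, hE1⟩ : ∃ E1 : E n →L[ℝ] E n, E1 =
        ((D0.symm.trans L).symm : E n →L[ℝ] E n) ∘L D - ContinuousLinearMap.id ℝ (E n) := ⟨_, rfl⟩
    obtain ⟨E2, hE2⟩ : ∃ E2 : E n →L[ℝ] E n, E2 = fderiv ℝ T p - D0 := ⟨_, rfl⟩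
    rw [← hE1] at hD2
    rw [← hE2] at hTp'
    have h6 : (L.symm : E n →L[ℝ] E n) ∘L (D ∘L fderiv ℝ T p) - ContinuousLinearMap.id ℝ (E n) =
        (D0.symm : E n →L[ℝ] E n) ∘L E2 +
          (D0.symm : E n →L[ℝ] E n) ∘L (E1 ∘L ((D0 : E n →L[ℝ] E n) + E2)) := by
      ext1 v
      have h7 : fderiv ℝ T p v = D0 v + E2 v := by
        rw [hE2]
        simp
      have h8 : ∀ w, E1 w = D0 (L.symm (D w)) - w := by
        intro w
        rw [hE1]
        rfl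
      simp only [_root_.sub_apply, ContinuousLinearMap.comp_apply, _root_.add_apply,
        ContinuousLinearEquiv.coe_coe, ContinuousLinearMap.id_apply]
      rw [h7, h8, map_sub, D0.symm_apply_apply, map_add D0.symm, D0.symm_apply_apply]
      abel
    rw [h6]
    have hE1n : ‖E1‖ ≤ C * (K * ε + 2 * K * η) := by
      refine hD2.trans (le_of_eq ?_)
      rw [← hCd, he]
      field_simp
    calc _ ≤ ‖(D0.symm : E n →L[ℝ] E n) ∘L E2‖ +
          ‖(D0.symm : E n →L[ℝ] E n) ∘L (E1 ∘L ((D0 : E n →L[ℝ] E n) + E2))‖ := norm_add_le _ _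
      _ ≤ K * η + K * ((C * (K * ε + 2 * K * η)) * (K + η)) := by
          gcongr
          · exact (ContinuousLinearMap.opNorm_comp_le _ _).trans (by gcongr)
          · refine (ContinuousLinearMap.opNorm_comp_le _ _).trans ?_
            gcongr
            refine (ContinuousLinearMap.opNorm_comp_le _ _).trans ?_
            gcongr
            exact (norm_add_le _ _).trans (by gcongr)
      _ ≤ 1 / 2 := by
          have h9 : 2 * K * η = K * ε := by rw [hη, hε]; field_simp; norm_num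
          rw [h9]
          have h10 : η ≤ K := by nlinarith
          have h11 : K * ((C * (K * ε + K * ε)) * (K + η)) ≤ 4 * (C * ε * K ^ 3) := by
            have : C * (K * ε + K * ε) * (K + η) ≤ C * (K * ε + K * ε) * (K + K) := by gcongr
            calc K * ((C * (K * ε + K * ε)) * (K + η)) ≤ K * (C * (K * ε + K * ε) * (K + K)) := by
                  gcongr
              _ = _ := by ring
          have h12 : C * ε * K ^ 3 ≤ 1 / 16 := by
            rw [hε]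
            rw [mul_one_div, div_mul_eq_mul_div, div_le_div_iff₀ (by positivity) (by norm_num)]
            nlinarith [show 0 < K ^ 3 by positivity]
          linarith
  · have h6 : L.symm (Mo n G r (T p) - H p) =
        D0.symm ((D0.symm.trans L).symm (Mo n G r (T p) - G (T p))) := by
      rw [hHp]
      have : (D0.symm.trans L).symm (Mo n G r (T p) - H p) = D0 (L.symm (Mo n G r (T p) - H p)) := rfl
      rw [this, D0.symm_apply_apply]
    rw [h6]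
    calc _ ≤ ‖(D0.symm : E n →L[ℝ] E n)‖ * ‖(D0.symm.trans L).symm (Mo n G r (T p) - G (T p))‖ :=
          (D0.symm : E n →L[ℝ] E n).le_opNorm _
      _ ≤ K * e := by gcongr
      _ ≤ 4 * K ^ 2 * r := by
          rw [he]
          have h7 : ε ≤ 1 := by
            rw [hε, div_le_one (by positivity)]
            nlinarith
          have h8 : η ≤ 1 := by
            rw [hη, div_le_one (by positivity)]
            nlinarith
          have h9 : (K * ε + 2 * K * η) * r ≤ (K * 1 + 2 * K * 1) * r := by gcongr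
          calc K * ((K * ε + 2 * K * η) * r) ≤ K * ((K * 1 + 2 * K * 1) * r) := by gcongr
            _ ≤ 4 * K ^ 2 * r := by nlinarith [mul_pos (mul_pos hK0 hK0) hr]

end Pool.Agent.X175.NA
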