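import Pool.Agent.X175.NA.Asm

/-!
# Functions given in one parametrization of a manifold; the glued maps
-/

set_option autoImplicit false

open Set Filter Topology Metric Function MeasureTheory
open scoped Manifold ContDiff

noncomputable section

namespace Pool.Agent.X175.NA

open Pool.Agent.Y522

variable {n : ℕ} {X : Type} [TopologicalSpace X] [ChartedSpace (E n) X]

/-- a parametrization which is good on the ball of radius `4 δ` -/
structure GC (B : E n → X) (δ : ℝ) : Prop where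
  pos : 0 < δ
  inj : InjOn B (closedBall 0 (4 * δ))
  ld : ∀ z ∈ closedBall (0 : E n) (4 * δ), LD n B z

lemma GC.cont {B : E n → X} {δ : ℝ} (h : GC B δ) : ContinuousOn B (closedBall 0 (4 * δ)) :=
  fun z hz => (h.ld z hz).continuousAt.continuousWithinAt

lemma GC.compact {B : E n → X} {δ : ℝ} (h : GC B δ) {ρ : ℝ} (hρ : ρ ≤ 4 * δ) :
    IsCompact (B '' closedBall 0 ρ) :=
  (isCompact_closedBall _ _).image_of_continuousOn (h.cont.mono (closedBall_subset_closedBall hρ))

open Classical in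
/-- the function on the manifold given by `v` in the parametrization -/
def pb {V : Type} (B : E n → X) (δ : ℝ) (v : E n → V) (u : X → V) (x : X) : V :=
  if h : ∃ z, ‖z‖ < 3 * δ ∧ B z = x then v h.choose else u x

lemma pb_eq {V : Type} {B : E n → X} {δ : ℝ} (h : GC B δ) (v : E n → V) (u : X → V) {z : E n}
    (hz : ‖z‖ < 3 * δ) : pb B δ v u (B z) = v z := by
  have hd := h.pos
  have h1 : ∃ z', ‖z'‖ < 3 * δ ∧ B z' = B z := ⟨z, hz, rfl⟩
  unfold pb
  rw [dif_pos h1]
  congr 1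
  apply h.inj
  · rw [mem_closedBall_zero_iff]
    linarith [h1.choose_spec.1]
  · rw [mem_closedBall_zero_iff]
    linarith
  · exact h1.choose_spec.2

/-- the bump function on `E n` -/
def chi (n : ℕ) (δ : ℝ) (hδ : 0 < δ) : ContDiffBump (0 : E n) := ⟨δ, 2 * δ, hδ, by linarith⟩

/-- the bump function on the manifold -/
def bf (B : E n → X) (δ : ℝ) (hδ : 0 < δ) : X → ℝ := pb B δ (chi n δ hδ) (fun _ => 0)

lemma bf_off [T2Space X] {B : E n → X} {δ : ℝ} (h : GC B δ) {x : X}
    (hx : x ∉ B '' closedBall 0 (2 * δ)) : ∀ᶠ y in 𝓝 x, bf B δ h.pos y = 0 := by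
  have hd := h.pos
  have h1 : IsClosed (B '' closedBall 0 (2 * δ)) := (h.compact (by linarith)).isClosed
  filter_upwards [h1.isOpen_compl.mem_nhds hx] with y hy
  by_cases h2 : ∃ z, ‖z‖ < 3 * δ ∧ B z = y
  · obtain ⟨z, hz, rfl⟩ := h2
    unfold bf
    rw [pb_eq h _ _ hz]
    apply (chi n δ h.pos).zero_of_le_dist
    rw [dist_zero_right]
    change 2 * δ ≤ ‖z‖
    by_contra h3
    rw [not_le] at h3
    exact hy ⟨z, mem_closedBall_zero_iff.2 h3.le, rfl⟩
  · unfold bf pb
    rw [dif_neg h2]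

lemma bf_mem {B : E n → X} {δ : ℝ} (h : GC B δ) (x : X) :
    0 ≤ bf B δ h.pos x ∧ bf B δ h.pos x ≤ 1 := by
  by_cases h2 : ∃ z, ‖z‖ < 3 * δ ∧ B z = x
  · obtain ⟨z, hz, rfl⟩ := h2
    unfold bf
    rw [pb_eq h _ _ hz]
    exact ⟨(chi n δ h.pos).nonneg, (chi n δ h.pos).le_one⟩
  · unfold bf pb
    rw [dif_neg h2]
    norm_num

lemma bf_one {B : E n → X} {δ : ℝ} (h : GC B δ) {z : E n} (hz : ‖z‖ ≤ δ) :
    bf B δ h.pos (B z) = 1 := by
  have hd := h.pos
  unfold bf
  rw [pb_eq h _ _ (by linarith)]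
  apply (chi n δ h.pos).one_of_mem_closedBall
  exact mem_closedBall_zero_iff.2 hz

/-- the transition to the parametrization `A` -/
structure Tr (B A : E n → X) (δ : ℝ) (T S : E n → E n) : Prop where
  ldT : LD n T 0
  ldS : LD n S (T 0)
  left : ∀ᶠ q in 𝓝 0, S (T q) = q
  right : ∀ᶠ w in 𝓝 (T 0), T (S w) = w
  eq : ∀ᶠ q in 𝓝 0, B (T q) = A q ∧ ‖T q‖ < 3 * δ

lemma exists_tr {B A : E n → X} {δ : ℝ} (h : GC B δ) (hA : LD n A 0)
    (hx : A 0 ∈ B '' closedBall 0 (2 * δ)) : ∃ T S : E n → E n, Tr B A δ T S := by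
  have hd := h.pos
  obtain ⟨z, hz, hzx⟩ := hx
  rw [mem_closedBall_zero_iff] at hz
  have hBz : LD n B z := h.ld z (by rw [mem_closedBall_zero_iff]; linarith)
  obtain ⟨P, hP, hP0, hP1, hP2⟩ := hBz.exists_inverse
  rw [hzx] at hP hP0 hP2
  have hT : LD n (fun q => P (A q)) 0 := LD.comp_fun hP hA
  obtain ⟨S, hS, -, hS1, hS2⟩ := hT.exists_inverse
  refine ⟨fun q => P (A q), S, hT, hS, hS1, hS2, ?_⟩
  have h1 : ∀ᶠ q in 𝓝 (0 : E n), B (P (A q)) = A q := hA.continuousAt.eventually hP2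
  have h2 : ∀ᶠ q in 𝓝 (0 : E n), ‖P (A q)‖ < 3 * δ := by
    have h3 : Tendsto (fun q => ‖P (A q)‖) (𝓝 0) (𝓝 ‖P (A 0)‖) := hT.continuousAt.norm
    rw [hP0] at h3
    exact h3.eventually (gt_mem_nhds (by linarith))
  exact h1.and h2

/-- `f` is a local diffeomorphism at `A p` if `f ∘ A` is one at `p` -/
lemma LD_of_comp {f : X → E n} {A : E n → X} {p : E n} (h : LD n (fun q => f (A q)) p)
    (hA : LD n A p) : LD n f (A p) := by
  obtain ⟨P, hP, hP0, -, hP2⟩ := hA.exists_inverse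
  have h1 : LD n (fun y => f (A (P y))) (A p) := by
    have h2 : LD n (fun q => f (A q)) (P (A p)) := by rw [hP0]; exact h
    exact LD.comp_fun (g := fun q => f (A q)) (f := P) h2 hP
  refine h1.congr ?_
  filter_upwards [hP2] with y hy
  rw [hy]

section data

variable {N : ℕ} (B : Fin N → E n → X) (δ : Fin N → ℝ) (h : ∀ k, GC (B k) (δ k)) (F : X → E n)

/-- the maps in the parametrizations -/
def GG (k : Fin N) : E n → E n := (closedBall (0 : E n) (4 * δ k)).indicator (fun z => F (B k z))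

/-- the weights -/
def wt : Option (Fin N) → X → ℝ
  | none => fun x => ∏ j, (1 - bf (B j) (δ j) (h j).pos x)
  | some k => fun x => bf (B k) (δ k) (h k).pos x *
      ∏ j ∈ Finset.univ.filter (· < k), (1 - bf (B j) (δ j) (h j).pos x)

/-- the mollified maps -/
def MM (r : ℝ) : Option (Fin N) → X → E n
  | none => F
  | some k => pb (B k) (δ k) (Mo n (GG B δ F k) r) F

/-- the glued map -/
def FF (r : ℝ) (x : X) : E n := ∑ i, wt B δ h i x • MM B δ F r i x

lemma wt_sum (x : X) : ∑ i, wt B δ h i x = 1 := by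
  rw [Fintype.sum_option]
  have h1 := Finset.prod_one_sub_ordered (Finset.univ : Finset (Fin N))
    (fun j => bf (B j) (δ j) (h j).pos x)
  have h2 : wt B δ h none x = ∏ j, (1 - bf (B j) (δ j) (h j).pos x) := rfl
  have h3 : ∀ k : Fin N, wt B δ h (some k) x = bf (B k) (δ k) (h k).pos x *
      ∏ j ∈ Finset.univ.filter (· < k), (1 - bf (B j) (δ j) (h j).pos x) := fun k => rfl
  rw [h2, h1]
  simp only [h3]
  simp

lemma wt_nonneg (i : Option (Fin N)) (x : X) : 0 ≤ wt B δ h i x := by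
  have h1 : ∀ j, 0 ≤ 1 - bf (B j) (δ j) (h j).pos x := fun j => by
    linarith [(bf_mem (h j) x).2]
  rcases i with _ | k
  · exact Finset.prod_nonneg fun j _ => h1 j
  · exact mul_nonneg (bf_mem (h k) x).1 (Finset.prod_nonneg fun j _ => h1 j)

include h in
lemma GG_int (hF : Continuous F) (k : Fin N) : LocallyIntegrable (GG B δ F k) volume := by
  have hk := (h k).cont
  apply Integrable.locallyIntegrable
  unfold GG
  rw [integrable_indicator_iff measurableSet_closedBall]
  exact (hF.comp_continuousOn hk).integrableOn_compact (isCompact_closedBall _ _)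

lemma GG_eq (k : Fin N) {z : E n} (hz : ‖z‖ ≤ 4 * δ k) : GG B δ F k z = F (B k z) := by
  unfold GG
  rw [indicator_of_mem (mem_closedBall_zero_iff.2 hz)]

variable [T2Space X]

lemma bf_Sm (k : Fin N) {A : E n → X} (hA : LD n A 0) :
    Sm (fun q => bf (B k) (δ k) (h k).pos (A q)) 0 := by
  by_cases hx : A 0 ∈ B k '' closedBall 0 (2 * δ k)
  · obtain ⟨T, S, hT⟩ := exists_tr (h k) hA hx
    have h1 : (fun q => bf (B k) (δ k) (h k).pos (A q)) =ᶠ[𝓝 0]
        fun q => chi n (δ k) (h k).pos (T q) := by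
      filter_upwards [hT.eq] with q hq
      rw [← hq.1]
      exact pb_eq (h k) _ _ hq.2
    filter_upwards [h1.eventuallyEq_nhds, hT.ldT.eventually] with q hq hq'
    refine ContDiffAt.congr_of_eventuallyEq ?_ hq
    exact (chi n (δ k) (h k).pos).contDiff.contDiffAt.comp q hq'.contDiffAt
  · have h1 : (fun q => bf (B k) (δ k) (h k).pos (A q)) =ᶠ[𝓝 0] fun _ => 0 :=
      hA.continuousAt.eventually (bf_off (h k) hx)
    filter_upwards [h1.eventuallyEq_nhds] with q hq
    exact contDiffAt_const.congr_of_eventuallyEq hq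

lemma wt_Sm (i : Option (Fin N)) {A : E n → X} (hA : LD n A 0) :
    Sm (fun q => wt B δ h i (A q)) 0 := by
  have h1 : ∀ᶠ q in 𝓝 (0 : E n), ∀ k : Fin N,
      ContDiffAt ℝ ∞ (fun q => bf (B k) (δ k) (h k).pos (A q)) q :=
    Filter.eventually_all.2 fun k => bf_Sm B δ h k hA
  filter_upwards [h1] with q hq
  rcases i with _ | k
  · exact contDiffAt_prod fun j _ => contDiffAt_const.sub (hq j)
  · exact (hq k).mul (contDiffAt_prod fun j _ => contDiffAt_const.sub (hq j))

lemma wt_off (k : Fin N) {x : X} (hx : x ∉ B k '' closedBall 0 (2 * δ k)) :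
    ∀ᶠ y in 𝓝 x, wt B δ h (some k) y = 0 := by
  filter_upwards [bf_off (h k) hx] with y hy
  unfold wt
  simp only
  rw [hy, zero_mul]

lemma FF_off {x : X} (hx : ∀ k, x ∉ B k '' closedBall 0 (2 * δ k)) (r : ℝ) :
    FF B δ h F r =ᶠ[𝓝 x] F := by
  have h1 : ∀ᶠ y in 𝓝 x, ∀ k, wt B δ h (some k) y = 0 :=
    Filter.eventually_all.2 fun k => wt_off B δ h k (hx k)
  filter_upwards [h1] with y hy
  have h2 := wt_sum B δ h y
  unfold FF
  rw [Fintype.sum_option] at h2 ⊢
  simp only [hy, Finset.sum_const_zero, add_zero, zero_smul] at h2 ⊢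
  rw [h2, one_smul]
  rfl

end data

end Pool.Agent.X175.NA
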