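import Pool.Agent.X175.NA.Loc

/-!
# The glued map is a local diffeomorphism near a point, for small radii
-/

set_option autoImplicit false

open Set Filter Topology Metric Function MeasureTheory
open scoped Manifold ContDiff

noncomputable section

namespace Pool.Agent.X175.NA

open Pool.Agent.Y522

/-- the conclusion of `KL` -/
def KLc (n : ℕ) (K ε : ℝ) : Prop :=
    ∀ (T S : E n → E n) (G H : E n → E n), LD n T 0 → LD n S (T 0) → (∀ᶠ q in 𝓝 0, S (T q) = q) →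
      (∀ᶠ w in 𝓝 (T 0), T (S w) = w) →
      LocallyIntegrable G volume → (∀ᶠ q in 𝓝 0, G (T q) = H q) →
      (∀ D : E n ≃L[ℝ] E n, HasFDerivAt T (D : E n →L[ℝ] E n) 0 →
        ‖(D : E n →L[ℝ] E n)‖ ≤ K ∧ ‖(D.symm : E n →L[ℝ] E n)‖ ≤ K) →
      ∃ δ : ℝ, 0 < δ ∧ ∀ (p : E n) (r : ℝ) (L : E n ≃L[ℝ] E n), ‖p‖ < δ → 0 < r → r < δ →
        NA H p (4 * K * r) (ε * r) L →
        ∃ D : E n →L[ℝ] E n, HasFDerivAt (fun q => Mo n G r (T q)) D p ∧
          ‖(L.symm : E n →L[ℝ] E n) ∘L D - ContinuousLinearMap.id ℝ (E n)‖ ≤ 1 / 2 ∧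
          ‖L.symm (Mo n G r (T p) - H p)‖ ≤ 4 * K ^ 2 * r

lemma KLc_exists (n : ℕ) (K : ℝ) (hK : 1 ≤ K) : ∃ ε : ℝ, 0 < ε ∧ ε ≤ 1 ∧ KLc n K ε := KL n K hK

variable {n : ℕ} {X : Type} [TopologicalSpace X] [ChartedSpace (E n) X] [T2Space X]
variable {N : ℕ} (B : Fin N → E n → X) (δ : Fin N → ℝ) (h : ∀ k, GC (B k) (δ k)) (F : X → E n)

theorem local_claim (hF : Continuous F) (K : ℝ) (hK : 1 ≤ K) (ε : ℝ) (hε : KLc n K ε)
    (A : E n → X) (hA : LD n A 0)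
    (hT : ∀ k, A 0 ∈ B k '' closedBall 0 (2 * δ k) → ∃ T S, Tr (B k) A (δ k) T S ∧
      ∀ D : E n ≃L[ℝ] E n, HasFDerivAt T (D : E n →L[ℝ] E n) 0 →
        ‖(D : E n →L[ℝ] E n)‖ ≤ K ∧ ‖(D.symm : E n →L[ℝ] E n)‖ ≤ K)
    (Q : ℝ → Prop)
    (hfr : ∀ᶠ pr : E n × ℝ in 𝓝 (0 : E n) ×ˢ 𝓝[>] (0 : ℝ), Q pr.2 → ∃ L : E n ≃L[ℝ] E n,
      NA (fun q => F (A q)) pr.1 (4 * K * pr.2) (ε * pr.2) L ∧
      ((∀ᶠ q in 𝓝 pr.1, wt B δ h none (A q) = 0) ∨
        (Sm (fun q => F (A q)) pr.1 ∧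
          HasFDerivAt (fun q => F (A q)) (L : E n →L[ℝ] E n) pr.1))) :
    ∀ᶠ pr : E n × ℝ in 𝓝 (0 : E n) ×ˢ 𝓝[>] (0 : ℝ), Q pr.2 →
      LD n (FF B δ h F pr.2) (A pr.1) := by
  classical
  obtain ⟨c, hc⟩ : ∃ c : ℝ, c = ((Finset.univ : Finset (Option (Fin N))).card : ℝ) := ⟨_, rfl⟩
  have hne : (Finset.univ : Finset (Option (Fin N))).Nonempty := ⟨none, Finset.mem_univ _⟩
  have hc0 : 0 < c := by rw [hc]; exact_mod_cast hne.card_pos
  have hpos : ∀ᶠ pr : E n × ℝ in 𝓝 (0 : E n) ×ˢ 𝓝[>] (0 : ℝ), 0 < pr.2 := by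
    have h1 : ∀ᶠ r in 𝓝[>] (0 : ℝ), 0 < r := self_mem_nhdsWithin
    exact h1.prod_inr _
  have hsmall : ∀ η : ℝ, 0 < η → ∀ᶠ pr : E n × ℝ in 𝓝 (0 : E n) ×ˢ 𝓝[>] (0 : ℝ),
      ‖pr.1‖ < η ∧ pr.2 < η := by
    intro η hη
    have h1 : ∀ᶠ p in 𝓝 (0 : E n), ‖p‖ < η := by
      have h2 : Tendsto (fun p : E n => ‖p‖) (𝓝 0) (𝓝 ‖(0 : E n)‖) := continuous_norm.continuousAt
      rw [norm_zero] at h2
      exact h2.eventually (gt_mem_nhds hη)
    have h3 : ∀ᶠ r in 𝓝[>] (0 : ℝ), r < η := mem_nhdsWithin_of_mem_nhds (gt_mem_nhds hη)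
    exact (h1.prod_inl _).and (h3.prod_inr _)
  have key : ∀ k : Fin N, ∀ᶠ pr : E n × ℝ in 𝓝 (0 : E n) ×ˢ 𝓝[>] (0 : ℝ),
      ∀ L : E n ≃L[ℝ] E n, NA (fun q => F (A q)) pr.1 (4 * K * pr.2) (ε * pr.2) L →
      ((∀ᶠ q in 𝓝 pr.1, wt B δ h (some k) (A q) = 0) ∨
        (Sm (fun q => wt B δ h (some k) (A q)) pr.1 ∧
          Sm (fun q => MM B δ F pr.2 (some k) (A q)) pr.1 ∧
          ∃ D : E n →L[ℝ] E n, HasFDerivAt (fun q => MM B δ F pr.2 (some k) (A q)) D pr.1 ∧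
            ‖(L.symm : E n →L[ℝ] E n) ∘L D - ContinuousLinearMap.id ℝ (E n)‖ ≤ 1 / 2 ∧
            ‖fderiv ℝ (fun q => wt B δ h (some k) (A q)) pr.1‖ *
              ‖L.symm (MM B δ F pr.2 (some k) (A pr.1) - F (A pr.1))‖ ≤ 1 / (4 * c))) := by
    intro k
    by_cases hx : A 0 ∈ B k '' closedBall 0 (2 * δ k)
    · obtain ⟨T, S, hTr, hD⟩ := hT k hx
      obtain ⟨η, hη, hkey⟩ := hε T S (GG B δ F k) (fun q => F (A q)) hTr.ldT hTr.ldS hTr.left
        hTr.right (GG_int B δ h F hF k) (by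
          filter_upwards [hTr.eq] with q hq
          rw [GG_eq B δ F k (by linarith [(h k).pos, hq.2]), hq.1]) hD
      have hw := wt_Sm B δ h (some k) hA
      have hwc : ContinuousAt (fderiv ℝ (fun q => wt B δ h (some k) (A q))) 0 :=
        ((hw.self_of_nhds).fderiv_right (m := 0) (by simp)).continuousAt
      obtain ⟨W, hW⟩ : ∃ W : ℝ, W = ‖fderiv ℝ (fun q => wt B δ h (some k) (A q)) 0‖ + 1 := ⟨_, rfl⟩
      have hW0 : 0 < W := by rw [hW]; positivity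
      have hwb : ∀ᶠ p in 𝓝 (0 : E n), ‖fderiv ℝ (fun q => wt B δ h (some k) (A q)) p‖ < W := by
        have h2 := hwc.norm
        exact h2.eventually (gt_mem_nhds (by rw [hW]; linarith))
      have hwe : ∀ᶠ p in 𝓝 (0 : E n), Sm (fun q => wt B δ h (some k) (A q)) p :=
        hw.eventually_nhds
      have hTe := hTr.eq.eventually_nhds
      have hTl := hTr.ldT.eventually.eventually_nhds
      filter_upwards [hpos, hsmall η hη, hsmall (1 / (W * (4 * K ^ 2) * (4 * c))) (by positivity),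
        hwb.prod_inl _, hwe.prod_inl _, hTe.prod_inl _, hTl.prod_inl _]
        with pr hr hη' hr2 hwb' hwe' hTe' hTl' L hL
      obtain ⟨D, hD1, hD2, hD3⟩ := hkey pr.1 pr.2 L hη'.1 hr hη'.2 hL
      have hM : (fun q => MM B δ F pr.2 (some k) (A q)) =ᶠ[𝓝 pr.1]
          fun q => Mo n (GG B δ F k) pr.2 (T q) := by
        filter_upwards [hTe'] with q hq
        rw [← hq.1]
        exact pb_eq (h k) _ _ hq.2
      right
      refine ⟨hwe', ?_, D, hD1.congr_of_eventuallyEq hM, hD2, ?_⟩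
      · have hsm := mo_smooth (GG_int B δ h F hF k) hr
        filter_upwards [hM.eventuallyEq_nhds, hTl'] with y hy hy'
        refine ContDiffAt.congr_of_eventuallyEq ?_ hy
        exact hsm.contDiffAt.comp y hy'.contDiffAt
      · have hM0 : MM B δ F pr.2 (some k) (A pr.1) = Mo n (GG B δ F k) pr.2 (T pr.1) :=
          hM.self_of_nhds
        rw [hM0]
        calc _ ≤ W * (4 * K ^ 2 * pr.2) := by gcongr
          _ ≤ W * (4 * K ^ 2 * (1 / (W * (4 * K ^ 2) * (4 * c)))) := by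
              gcongr
              exact hr2.2.le
          _ = 1 / (4 * c) := by field_simp
    · have h1 : ∀ᶠ q in 𝓝 (0 : E n), wt B δ h (some k) (A q) = 0 :=
        hA.continuousAt.eventually (wt_off B δ h k hx)
      filter_upwards [h1.eventually_nhds.prod_inl _] with pr hpr L _
      exact Or.inl hpr
  have key' := Filter.eventually_all.2 key
  have hwn : ∀ᶠ p in 𝓝 (0 : E n), Sm (fun q => wt B δ h none (A q)) p :=
    (wt_Sm B δ h none hA).eventually_nhds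
  filter_upwards [hfr, key', hwn.prod_inl _, hA.eventually.prod_inl _] with pr h1 h2 h3 h4 hQ
  obtain ⟨L, hL, hn⟩ := h1 hQ
  refine LD_of_comp ?_ h4
  refine asm (Finset.univ : Finset (Option (Fin N))) hne (fun i q => wt B δ h i (A q))
    (fun i q => MM B δ F pr.2 i (A q)) (fun q => F (A q)) pr.1 L ?_ ?_ ?_
  · exact Eventually.of_forall fun q => wt_sum B δ h (A q)
  · exact fun i _ => wt_nonneg B δ h i (A pr.1)
  · intro i _
    rcases i with _ | k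
    · rcases hn with hn | ⟨hn1, hn2⟩
      · exact Or.inl hn
      · refine Or.inr ⟨h3, hn1, _, hn2, ?_, ?_⟩
        · have : (L.symm : E n →L[ℝ] E n) ∘L (L : E n →L[ℝ] E n) -
              ContinuousLinearMap.id ℝ (E n) = 0 := by
            ext1 v
            simp
          rw [this, norm_zero]
          norm_num
        · have : MM B δ F pr.2 none (A pr.1) - F (A pr.1) = 0 := sub_self _
          rw [this, map_zero, norm_zero, mul_zero]
          positivity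
    · rw [← hc]
      exact h2 k L hL

end Pool.Agent.X175.NA
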