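import Pool.Agent.Y954.SH.MollS

/-!
# Mollification of nearly affine maps at one scale
-/

set_option autoImplicit false

open Set Filter Topology Metric Function MeasureTheory
open scoped ContDiff Convolution

noncomputable section

namespace Pool.Agent.X175.NA

open Pool.Agent.Y522 Pool.Agent.Y954.SH

variable {n : ℕ}

/-- mollification with a constant radius -/
def Mo (n : ℕ) (G : E n → E n) (r : ℝ) (z : E n) : E n := ∫ s, kr n s • G (z + r • s)

lemma gk_smooth (r : ℝ) : ContDiff ℝ ∞ (gk n r) := by
  unfold gk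
  have h : ContDiff ℝ ∞ (fun w : E n => r⁻¹ • w) := contDiff_id.const_smul r⁻¹
  exact contDiff_const.mul (kr_smooth.comp h)

lemma gk_supp {r : ℝ} (hr : 0 < r) : HasCompactSupport (gk n r) := by
  apply HasCompactSupport.of_support_subset_isCompact (isCompact_closedBall (0 : E n) r)
  intro w hw
  rw [mem_closedBall_zero_iff]
  by_contra h
  rw [not_le] at h
  apply hw
  unfold gk
  rw [kr_zero, mul_zero]
  rw [norm_smul, norm_inv, Real.norm_of_nonneg hr.le, inv_mul_eq_div, le_div_iff₀ hr]
  linarith

lemma mo_eq (G : E n → E n) {r : ℝ} (hr : 0 < r) : Mo n G r = G ⋆[LL n, volume] gk n r := by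
  funext y
  exact moll_conv G y hr

lemma mo_smooth {G : E n → E n} (hG : LocallyIntegrable G volume) {r : ℝ} (hr : 0 < r) :
    ContDiff ℝ ∞ (Mo n G r) := by
  rw [mo_eq G hr]
  exact (gk_supp hr).contDiff_convolution_right _ hG (gk_smooth r)

lemma gk_fderiv (r : ℝ) (w : E n) :
    fderiv ℝ (gk n r) w = ((r ^ n)⁻¹ * r⁻¹) • fderiv ℝ (kr n) (r⁻¹ • w) := by
  have h1 : HasFDerivAt (kr n) (fderiv ℝ (kr n) (r⁻¹ • w)) (r⁻¹ • w) :=
    (kr_smooth.differentiable (by simp) _).hasFDerivAt
  have h2 : HasFDerivAt (fun w : E n => r⁻¹ • w) (r⁻¹ • ContinuousLinearMap.id ℝ (E n)) w :=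
    (hasFDerivAt_id w).const_smul r⁻¹
  have h3 := (h1.comp w h2).const_mul (r ^ n)⁻¹
  have h4 : HasFDerivAt (gk n r) ((r ^ n)⁻¹ • (fderiv ℝ (kr n) (r⁻¹ • w)).comp
      (r⁻¹ • ContinuousLinearMap.id ℝ (E n))) w := h3
  rw [h4.fderiv]
  ext v
  simp [mul_assoc]

/-- the total variation of the kernel -/
def C0 (n : ℕ) : ℝ := ∫ s, ‖fderiv ℝ (kr n) s‖

lemma C0_nonneg : 0 ≤ C0 n := integral_nonneg fun _ => norm_nonneg _

lemma gk_fderiv_int {r : ℝ} (hr : 0 < r) : ∫ w, ‖fderiv ℝ (gk n r) w‖ = C0 n / r := by
  have h2 := Measure.integral_comp_smul_of_nonneg (volume : Measure (E n))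
    (fun w => ‖fderiv ℝ (kr n) w‖) r⁻¹ (hR := (inv_pos.2 hr).le)
  rw [finrank_euclideanSpace, Fintype.card_fin] at h2
  have h3 : ∀ w : E n, ‖fderiv ℝ (gk n r) w‖ = ((r ^ n)⁻¹ * r⁻¹) * ‖fderiv ℝ (kr n) (r⁻¹ • w)‖ := by
    intro w
    rw [gk_fderiv, norm_smul, Real.norm_of_nonneg (by positivity)]
  simp only [h3]
  rw [integral_const_mul, h2, smul_eq_mul]
  unfold C0
  rw [inv_pow, inv_inv]
  field_simp

lemma gk_fderiv_integrable {r : ℝ} (hr : 0 < r) (z : E n) :
    Integrable (fun t => ‖fderiv ℝ (gk n r) (z - t)‖) := by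
  have h1 : Continuous (fderiv ℝ (gk n r)) := (gk_smooth r).continuous_fderiv (by simp)
  have h2 : HasCompactSupport (fderiv ℝ (gk n r)) := (gk_supp hr).fderiv ℝ
  have h3 : Integrable (fun w => ‖fderiv ℝ (gk n r) w‖) :=
    (h1.integrable_of_hasCompactSupport h2).norm
  exact h3.comp_sub_left z

lemma gk_fderiv_zero {r : ℝ} (hr : 0 < r) {w : E n} (hw : r < ‖w‖) : fderiv ℝ (gk n r) w = 0 := by
  have h1 : gk n r =ᶠ[𝓝 w] fun _ => (0 : ℝ) := by
    have h2 : ∀ᶠ y in 𝓝 w, r < ‖y‖ := (continuous_norm.tendsto w).eventually (lt_mem_nhds hw)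
    filter_upwards [h2] with y hy
    unfold gk
    rw [kr_zero, mul_zero]
    rw [norm_smul, norm_inv, Real.norm_of_nonneg hr.le, inv_mul_eq_div, le_div_iff₀ hr]
    linarith
  rw [h1.fderiv_eq]
  simp

/-- the derivative of the mollification of a small remainder -/
lemma mo_rem {Rm : E n → E n} (hR : LocallyIntegrable Rm volume) {r : ℝ} (hr : 0 < r) (z : E n)
    {e : ℝ} (L' : E n →L[ℝ] E n) (he : ∀ y, ‖y‖ ≤ r → ‖L' (Rm (z + y))‖ ≤ e) :
    ∃ D : E n →L[ℝ] E n, HasFDerivAt (Mo n Rm r) D z ∧ ‖L' ∘L D‖ ≤ C0 n * e / r ∧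
      ‖L' (Mo n Rm r z)‖ ≤ e := by
  have he0 : 0 ≤ e := (norm_nonneg _).trans (he 0 (by simpa using hr.le))
  have hd := (gk_supp (n := n) hr).hasFDerivAt_convolution_right (LL n) hR
    ((gk_smooth r).of_le (by simp)) z
  rw [← mo_eq Rm hr] at hd
  refine ⟨_, hd, ?_, ?_⟩
  · refine ContinuousLinearMap.opNorm_le_bound _ ?_ fun v => ?_
    · have := C0_nonneg (n := n)
      positivity
    · have hci := ((gk_supp (n := n) hr).fderiv ℝ).convolutionExists_right
        (L := (LL n).precompR (E n)) hR ((gk_smooth (n := n) r).continuous_fderiv (by simp)) z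
      have h1 : (L' ∘L ((Rm ⋆[(LL n).precompR (E n), volume] fderiv ℝ (gk n r)) z)) v =
          ∫ t, (fderiv ℝ (gk n r) (z - t) v) • L' (Rm t) := by
        rw [ContinuousLinearMap.comp_apply]
        unfold convolution
        rw [ContinuousLinearMap.integral_apply hci.integrable, ← L'.integral_comp_comm]
        · congr 1
          funext t
          have h9 : (((LL n).precompR (E n)) (Rm t) (fderiv ℝ (gk n r) (z - t))) v =
              (fderiv ℝ (gk n r) (z - t) v) • Rm t := by
            rw [ContinuousLinearMap.precompR_apply, ContinuousLinearMap.compL_apply,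
              ContinuousLinearMap.comp_apply, LL_apply]
          rw [h9, map_smul]
        · exact (hci.integrable).apply_continuousLinearMap v
      rw [h1]
      calc ‖∫ t, (fderiv ℝ (gk n r) (z - t) v) • L' (Rm t)‖
          ≤ ∫ t, ‖fderiv ℝ (gk n r) (z - t)‖ * (‖v‖ * e) := by
            apply norm_integral_le_of_norm_le ((gk_fderiv_integrable hr z).mul_const _)
            apply Eventually.of_forall
            intro t
            rw [norm_smul]
            by_cases ht : r < ‖z - t‖
            · rw [gk_fderiv_zero hr ht]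
              simp
            · rw [not_lt] at ht
              have h2 : ‖L' (Rm t)‖ ≤ e := by
                have := he (t - z) (by rw [norm_sub_rev]; exact ht)
                rwa [add_sub_cancel] at this
              calc ‖fderiv ℝ (gk n r) (z - t) v‖ * ‖L' (Rm t)‖
                  ≤ (‖fderiv ℝ (gk n r) (z - t)‖ * ‖v‖) * e := by
                    gcongr
                    exact ContinuousLinearMap.le_opNorm _ _
                _ = _ := by ring
        _ = C0 n * e / r * ‖v‖ := by
            rw [integral_mul_const, integral_sub_left_eq_self (fun w => ‖fderiv ℝ (gk n r) w‖),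
              gk_fderiv_int hr]
            ring
  · unfold Mo
    by_cases hi : Integrable (fun s => kr n s • Rm (z + r • s))
    · rw [← L'.integral_comp_comm hi]
      calc ‖∫ s, L' (kr n s • Rm (z + r • s))‖ ≤ ∫ s, kr n s * e := by
            apply norm_integral_le_of_norm_le (kr_integrable.mul_const _)
            apply Eventually.of_forall
            intro s
            rw [map_smul, norm_smul, Real.norm_of_nonneg (kr_nonneg s)]
            by_cases hs : kr n s = 0
            · rw [hs]; simp
            · gcongr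
              · exact kr_nonneg s
              · apply he
                rw [norm_smul, Real.norm_of_nonneg hr.le]
                nlinarith [kr_lt hs]
        _ = e := by rw [integral_mul_const, kr_int, one_mul]
    · rw [integral_undef hi, map_zero, norm_zero]
      exact he0

/-- affine maps are reproduced -/
lemma mo_affine (L : E n →L[ℝ] E n) (c z : E n) (r : ℝ) (y : E n) :
    Mo n (fun w => c + L (w - z)) r y = c + L (y - z) := by
  unfold Mo
  have i1 : Integrable (fun s : E n => kr n s • (c + L (y - z))) := kr_integrable.smul_const _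
  have i2 : Integrable (fun s : E n => kr n s • s) := by
    have h1 : Continuous (fun s : E n => kr n s • s) := (kr_smooth (n := n)).continuous.smul continuous_id
    apply h1.integrable_of_hasCompactSupport
    apply HasCompactSupport.of_support_subset_isCompact (isCompact_closedBall (0 : E n) 1)
    intro s hs
    rw [mem_closedBall_zero_iff]
    apply (kr_lt (n := n) _).le
    intro h
    apply hs
    simp [h]
  have h0 : ∫ s : E n, kr n s • s = 0 := by
    have h1 : ∫ s : E n, kr n s • s = ∫ s : E n, kr n (-s) • (-s) :=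
      (integral_neg_eq_self (fun s : E n => kr n s • s) volume).symm
    have h2 : ∫ s : E n, kr n (-s) • (-s) = - ∫ s : E n, kr n s • s := by
      rw [← integral_neg]
      congr 1
      funext s
      rw [kr_neg, smul_neg]
    rw [h2] at h1
    have h3 : (2 : ℝ) • (∫ s : E n, kr n s • s) = 0 := by
      rw [two_smul]
      nth_rewrite 1 [h1]
      simp
    exact (smul_eq_zero.1 h3).resolve_left (by norm_num)
  have h1 : ∀ s : E n, kr n s • (c + L (y + r • s - z)) =
      kr n s • (c + L (y - z)) + (r • L) (kr n s • s) := by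
    intro s
    have : y + r • s - z = (y - z) + r • s := by abel
    rw [this, map_add, map_smul, ← add_assoc, smul_add]
    congr 1
    rw [_root_.smul_apply, map_smul, smul_comm]
  simp only [h1]
  rw [integral_add i1 ((r • L).integrable_comp i2), (r • L).integral_comp_comm i2, h0, map_zero,
    add_zero, integral_smul_const, kr_int, one_smul]

/-- splitting off an affine map -/
lemma mo_split {G : E n → E n} (hG : LocallyIntegrable G volume) {r : ℝ} (hr : 0 < r)
    (L : E n →L[ℝ] E n) (c z : E n) (y : E n) :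
    Mo n G r y = (c + L (y - z)) + Mo n (fun w => G w - (c + L (w - z))) r y := by
  have hcont : Continuous (fun w : E n => c + L (w - z)) := by fun_prop
  have hR : LocallyIntegrable (fun w => G w - (c + L (w - z))) volume :=
    hG.sub hcont.locallyIntegrable
  have e1 : G = (fun w : E n => c + L (w - z)) + (fun w => G w - (c + L (w - z))) := by
    funext w
    simp
  have c1 : ConvolutionExistsAt (fun w : E n => c + L (w - z)) (gk n r) y (LL n) volume :=
    (gk_supp (n := n) hr).convolutionExists_right (LL n) hcont.locallyIntegrable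
      (gk_smooth r).continuous y
  have c2 : ConvolutionExistsAt (fun w => G w - (c + L (w - z))) (gk n r) y (LL n) volume :=
    (gk_supp (n := n) hr).convolutionExists_right (LL n) hR (gk_smooth r).continuous y
  have h4 := c1.add_distrib c2
  rw [← e1, ← mo_eq _ hr, ← mo_eq _ hr, ← mo_eq _ hr] at h4
  rw [h4, mo_affine L c z r y]

/-- the mollification is close to the map -/
lemma mo_close {G : E n → E n} (hG : LocallyIntegrable G volume) {r : ℝ} (hr : 0 < r) (z : E n)
    {e : ℝ} (he : ∀ y, ‖y‖ ≤ r → ‖G (z + y) - G z‖ ≤ e) : ‖Mo n G r z - G z‖ ≤ e := by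
  have hcont : Continuous (fun w : E n => G z + (0 : E n →L[ℝ] E n) (w - z)) := by fun_prop
  have hR : LocallyIntegrable (fun w => G w - (G z + (0 : E n →L[ℝ] E n) (w - z))) volume :=
    hG.sub hcont.locallyIntegrable
  obtain ⟨D, -, -, h3⟩ := mo_rem hR hr z
    (ContinuousLinearMap.id ℝ (E n)) (e := e) (by
      intro y hy
      simpa using he y hy)
  have h4 := mo_split hG hr (0 : E n →L[ℝ] E n) (G z) z z
  rw [h4]
  simpa using h3

/-- **Lemma A**: the mollification of a nearly affine map -/
lemma mo_main {G : E n → E n} (hG : LocallyIntegrable G volume) {r : ℝ} (hr : 0 < r) (z : E n)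
    {e : ℝ} (L : E n ≃L[ℝ] E n) (he : ∀ y, ‖y‖ ≤ r → ‖L.symm (G (z + y) - G z) - y‖ ≤ e) :
    ∃ D : E n →L[ℝ] E n, HasFDerivAt (Mo n G r) D z ∧
      ‖(L.symm : E n →L[ℝ] E n) ∘L D - ContinuousLinearMap.id ℝ (E n)‖ ≤ C0 n * e / r ∧
      ‖L.symm (Mo n G r z - G z)‖ ≤ e := by
  obtain ⟨Rm, hRm⟩ : ∃ Rm : E n → E n, Rm = fun w => G w - (G z + (L : E n →L[ℝ] E n) (w - z)) :=
    ⟨_, rfl⟩
  have hcont : Continuous (fun w : E n => G z + (L : E n →L[ℝ] E n) (w - z)) := by fun_prop
  have hR : LocallyIntegrable Rm volume := by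
    rw [hRm]
    exact hG.sub hcont.locallyIntegrable
  obtain ⟨D, h1, h2, h3⟩ := mo_rem hR hr z (L.symm : E n →L[ℝ] E n) (e := e) (by
    intro y hy
    have := he y hy
    rw [hRm]
    have h4 : (L.symm : E n →L[ℝ] E n) (G (z + y) - (G z + (L : E n →L[ℝ] E n) (z + y - z))) =
        L.symm (G (z + y) - G z) - y := by
      rw [add_sub_cancel_left, ← sub_sub, ContinuousLinearEquiv.coe_coe, map_sub,
        ContinuousLinearEquiv.coe_coe, L.symm_apply_apply]
    rwa [h4])
  have hsum : Mo n G r = fun y => (G z + (L : E n →L[ℝ] E n) (y - z)) + Mo n Rm r y := by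
    funext y
    rw [hRm]
    exact mo_split hG hr (L : E n →L[ℝ] E n) (G z) z y
  refine ⟨(L : E n →L[ℝ] E n) + D, ?_, ?_, ?_⟩
  · rw [hsum]
    have h5 : HasFDerivAt (fun y : E n => G z + (L : E n →L[ℝ] E n) (y - z))
        (L : E n →L[ℝ] E n) z := by
      have h6 : HasFDerivAt (fun y : E n => y - z) (ContinuousLinearMap.id ℝ (E n)) z :=
        (hasFDerivAt_id z).sub_const z
      have h7 := ((L : E n →L[ℝ] E n).hasFDerivAt.comp z h6).const_add (G z)
      simpa using h7
    exact h5.add h1
  · have h5 : (L.symm : E n →L[ℝ] E n) ∘L ((L : E n →L[ℝ] E n) + D) -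
        ContinuousLinearMap.id ℝ (E n) = (L.symm : E n →L[ℝ] E n) ∘L D := by
      ext v
      simp
    rw [h5]
    exact h2
  · have h5 : Mo n G r z - G z = Mo n Rm r z := by
      rw [hsum]
      simp
    rw [h5]
    exact h3

end Pool.Agent.X175.NA
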